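import Pool.Agent.Helper98.EX.Defs

/-!
# Basic facts on heights, marks, the step operator and schedules
-/

namespace Pool.Agent.Helper98.EX

open Finset

variable {N : ℕ}

/-! ### occupation and heights -/

theorem occ_lt {η : Cfg N} {i : ℕ} (h : i < N) : occ η i = η ⟨i, h⟩ := by simp [occ, h]

theorem occ_ge {η : Cfg N} {i : ℕ} (h : N ≤ i) : occ η i = false := by
  simp [occ, not_lt.mpr h]

theorem occ_fin (η : Cfg N) (i : Fin N) : occ η i.val = η i := by
  simp [occ, i.isLt]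

theorem cfg_ext {η ξ : Cfg N} (h : ∀ i, i < N → occ η i = occ ξ i) : η = ξ := by
  funext i
  have := h i.val i.isLt
  rwa [occ_fin, occ_fin] at this

theorem ht_ge {η : Cfg N} {x : ℕ} (h : N ≤ x) : ht η x = 0 := by
  simp [ht, Finset.Ico_eq_empty_of_le h]

theorem ht_succ (η : Cfg N) {x : ℕ} (h : x < N) :
    ht η x = (if occ η x = true then 1 else 0) + ht η (x + 1) := by
  unfold ht
  rw [Finset.sum_eq_sum_Ico_succ_bot h]

theorem ht_succ_le (η : Cfg N) (x : ℕ) : ht η (x + 1) ≤ ht η x := by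
  rcases lt_or_ge x N with h | h
  · rw [ht_succ η h]; omega
  · rw [ht_ge h, ht_ge (by omega)]

theorem ht_le_succ (η : Cfg N) (x : ℕ) : ht η x ≤ ht η (x + 1) + 1 := by
  rcases lt_or_ge x N with h | h
  · rw [ht_succ η h]; split_ifs <;> omega
  · rw [ht_ge h]; omega

theorem ht_anti (η : Cfg N) : Antitone (ht η) := antitone_nat_of_succ_le (ht_succ_le η)

theorem ht_le_add (η : Cfg N) (x d : ℕ) : ht η x ≤ ht η (x + d) + d := by
  induction d with
  | zero => simp
  | succ d ih =>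
    have := ht_le_succ η (x + d)
    have e : x + (d + 1) = x + d + 1 := by ring
    rw [e]; omega

theorem ht_le_sub (η : Cfg N) {x y : ℕ} (h : x ≤ y) : ht η x ≤ ht η y + (y - x) := by
  have := ht_le_add η x (y - x)
  rwa [Nat.add_sub_cancel' h] at this

theorem ht_le (η : Cfg N) (x : ℕ) : ht η x ≤ N - x := by
  rcases le_or_gt N x with h | h
  · rw [ht_ge h]; omega
  · have := ht_le_sub η h.le
    rw [ht_ge (η := η) le_rfl] at this; omega

theorem ht_cnt (η : Cfg N) {A B : ℕ} (hAB : A ≤ B) (hB : B ≤ N) : ht η A = cnt η A B + ht η B := by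
  unfold ht cnt
  rw [Finset.sum_Ico_consecutive _ hAB hB]

theorem occ_iff_ht (η : Cfg N) {x : ℕ} (h : x < N) : occ η x = true ↔ ht η x = ht η (x + 1) + 1 := by
  rw [ht_succ η h]
  by_cases hx : occ η x = true <;> simp [hx]; omega

theorem not_occ_iff_ht (η : Cfg N) {x : ℕ} (h : x < N) :
    occ η x = false ↔ ht η x = ht η (x + 1) := by
  rw [ht_succ η h]
  by_cases hx : occ η x = true <;> simp [hx]

theorem ext_ht {η ξ : Cfg N} (h : ∀ x, ht η x = ht ξ x) : η = ξ := by
  apply cfg_ext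
  intro i hi
  by_cases h1 : occ η i = true
  · have := (occ_iff_ht η hi).1 h1
    rw [h1]; symm; rw [occ_iff_ht ξ hi, ← h, ← h, this]
  · have h1' : occ η i = false := by simpa using h1
    have := (not_occ_iff_ht η hi).1 h1'
    rw [h1']; symm; rw [not_occ_iff_ht ξ hi, ← h, ← h, this]

/-! ### marks -/

theorem occ_swp {x : ℕ} (_hx1 : 1 ≤ x) (hxN : x < N) (η : Cfg N) (i : ℕ) :
    occ (swp x η) i = if i = x then occ η (x - 1) else if i + 1 = x then occ η x else occ η i := by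
  rcases lt_or_ge i N with h | h
  · rw [occ_lt h]; simp only [swp]
    split_ifs <;> simp [occ, h]
  · rw [occ_ge h]
    rw [if_neg (by omega), if_neg (by omega), occ_ge h]

theorem occ_swp_self {x : ℕ} (hx1 : 1 ≤ x) (hxN : x < N) (η : Cfg N) :
    occ (swp x η) x = occ η (x - 1) := by rw [occ_swp hx1 hxN, if_pos rfl]

theorem occ_swp_pred {x : ℕ} (hx1 : 1 ≤ x) (hxN : x < N) (η : Cfg N) :
    occ (swp x η) (x - 1) = occ η x := by
  rw [occ_swp hx1 hxN, if_neg (by omega), if_pos (by omega)]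

theorem occ_swp_ne {x : ℕ} (hx1 : 1 ≤ x) (hxN : x < N) (η : Cfg N) {i : ℕ} (h1 : i ≠ x)
    (h2 : i + 1 ≠ x) : occ (swp x η) i = occ η i := by
  rw [occ_swp hx1 hxN, if_neg h1, if_neg h2]

theorem ht_swp {x : ℕ} (hx1 : 1 ≤ x) (hxN : x < N) (η : Cfg N) (y : ℕ) (hy : y ≠ x) :
    ht (swp x η) y = ht η y := by
  rcases lt_or_gt_of_ne hy with h | h
  · -- y < x : both sites x-1, x counted
    have h1 : ∀ z : ℕ, x < z → ht (swp x η) z = ht η z := by
      intro z hz
      unfold ht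
      apply Finset.sum_congr rfl
      intro i hi
      rw [Finset.mem_Ico] at hi
      rw [occ_swp_ne hx1 hxN η (by omega) (by omega)]
    have h2 : ht (swp x η) (x - 1) = ht η (x - 1) := by
      rw [ht_succ _ (by omega : x - 1 < N), ht_succ η (by omega : x - 1 < N)]
      have e : x - 1 + 1 = x := by omega
      rw [e, ht_succ _ hxN, ht_succ η hxN, h1 (x + 1) (by omega), occ_swp_self hx1 hxN,
        occ_swp_pred hx1 hxN]
      ring
    -- downward from x - 1
    have h3 : ∀ d : ℕ, d ≤ x - 1 → ht (swp x η) (x - 1 - d) = ht η (x - 1 - d) := by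
      intro d
      induction d with
      | zero => intro _; simpa using h2
      | succ d ih =>
        intro hd
        have ih' := ih (by omega)
        have e : x - 1 - (d + 1) + 1 = x - 1 - d := by omega
        rw [ht_succ _ (by omega : x - 1 - (d + 1) < N), ht_succ η (by omega : x - 1 - (d + 1) < N),
          e, ih', occ_swp_ne hx1 hxN η (by omega) (by omega)]
    have := h3 (x - 1 - y) (by omega)
    have e : x - 1 - (x - 1 - y) = y := by omega
    rwa [e] at this
  · unfold ht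
    apply Finset.sum_congr rfl
    intro i hi
    rw [Finset.mem_Ico] at hi
    rw [occ_swp_ne hx1 hxN η (by omega) (by omega)]

theorem Rm_out {x : ℕ} (η : Cfg N) (h : ¬ (1 ≤ x ∧ x < N)) : Rm x η = η := by
  unfold Rm; rw [if_neg (by tauto)]

theorem Lm_out {x : ℕ} (η : Cfg N) (h : ¬ (1 ≤ x ∧ x < N)) : Lm x η = η := by
  unfold Lm; rw [if_neg (by tauto)]

theorem ht_Rm_ne (η : Cfg N) {x y : ℕ} (hy : y ≠ x) : ht (Rm x η) y = ht η y := by
  unfold Rm; split_ifs with h
  · exact ht_swp h.1 h.2.1 η y hy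
  · rfl

theorem ht_Lm_ne (η : Cfg N) {x y : ℕ} (hy : y ≠ x) : ht (Lm x η) y = ht η y := by
  unfold Lm; split_ifs with h
  · exact ht_swp h.1 h.2.1 η y hy
  · rfl

theorem ht_Rm (η : Cfg N) {x : ℕ} (h1 : 1 ≤ x) (h2 : x < N) :
    ht (Rm x η) x = min (ht η (x - 1)) (ht η (x + 1) + 1) := by
  have e : x - 1 + 1 = x := by omega
  have a1 := ht_succ η (by omega : x - 1 < N)
  have a2 := ht_succ η h2
  rw [e] at a1
  unfold Rm
  split_ifs with h
  · have b := ht_succ (swp x η) h2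
    have b' := ht_swp h1 h2 η (x + 1) (by omega)
    rw [occ_swp h1 h2, if_pos rfl, b', h.2.2.1] at b
    rw [h.2.2.1] at a1; rw [h.2.2.2] at a2
    simp only [if_true, Bool.false_eq_true, if_false] at a1 a2 b
    rw [b]; omega
  · by_cases p : occ η (x - 1) = true
    · by_cases q : occ η x = true
      · rw [p] at a1; rw [q] at a2; simp only [if_true] at a1 a2; omega
      · exact absurd ⟨h1, h2, p, by simpa using q⟩ h
    · have p' : occ η (x - 1) = false := by simpa using p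
      rw [p'] at a1
      simp only [Bool.false_eq_true, if_false] at a1
      split_ifs at a2 <;> omega

theorem ht_Lm (η : Cfg N) {x : ℕ} (h1 : 1 ≤ x) (h2 : x < N) :
    ht (Lm x η) x = max (ht η (x - 1) - 1) (ht η (x + 1)) := by
  have e : x - 1 + 1 = x := by omega
  have a1 := ht_succ η (by omega : x - 1 < N)
  have a2 := ht_succ η h2
  rw [e] at a1
  unfold Lm
  split_ifs with h
  · have b := ht_succ (swp x η) h2
    have b' := ht_swp h1 h2 η (x + 1) (by omega)
    rw [occ_swp h1 h2, if_pos rfl, b', h.2.2.1] at b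
    rw [h.2.2.1] at a1; rw [h.2.2.2] at a2
    simp only [if_true, Bool.false_eq_true, if_false] at a1 a2 b
    rw [b]; omega
  · by_cases p : occ η (x - 1) = true
    · rw [p] at a1
      simp only [if_true] at a1
      split_ifs at a2 <;> omega
    · have p' : occ η (x - 1) = false := by simpa using p
      by_cases q : occ η x = true
      · exact absurd ⟨h1, h2, p', q⟩ h
      · have q' : occ η x = false := by simpa using q
        rw [p'] at a1; rw [q'] at a2
        simp only [Bool.false_eq_true, if_false] at a1 a2; omega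

theorem ht_Rm_ge (η : Cfg N) (x y : ℕ) : ht η y ≤ ht (Rm x η) y := by
  by_cases hy : y = x
  · subst hy
    by_cases h : 1 ≤ y ∧ y < N
    · rw [ht_Rm η h.1 h.2]
      have a := ht_succ_le η (y - 1)
      have b := ht_le_succ η y
      have e : y - 1 + 1 = y := by omega
      rw [e] at a; omega
    · rw [Rm_out η h]
  · rw [ht_Rm_ne η hy]

theorem ht_Rm_le (η : Cfg N) (x y : ℕ) : ht (Rm x η) y ≤ ht η y + 1 := by
  by_cases hy : y = x
  · subst hy
    by_cases h : 1 ≤ y ∧ y < N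
    · rw [ht_Rm η h.1 h.2]
      have b := ht_succ_le η y
      omega
    · rw [Rm_out η h]; omega
  · rw [ht_Rm_ne η hy]; omega

theorem ht_Lm_le (η : Cfg N) (x y : ℕ) : ht (Lm x η) y ≤ ht η y := by
  by_cases hy : y = x
  · subst hy
    by_cases h : 1 ≤ y ∧ y < N
    · rw [ht_Lm η h.1 h.2]
      have a := ht_le_succ η (y - 1)
      have b := ht_succ_le η y
      have e : y - 1 + 1 = y := by omega
      rw [e] at a; omega
    · rw [Lm_out η h]
  · rw [ht_Lm_ne η hy]

theorem ht_Lm_ge (η : Cfg N) (x y : ℕ) : ht η y ≤ ht (Lm x η) y + 1 := by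
  by_cases hy : y = x
  · subst hy
    by_cases h : 1 ≤ y ∧ y < N
    · rw [ht_Lm η h.1 h.2]
      have b := ht_le_succ η y
      omega
    · rw [Lm_out η h]; omega
  · rw [ht_Lm_ne η hy]; omega

theorem ht_Rm_zero (η : Cfg N) (x : ℕ) : ht (Rm x η) 0 = ht η 0 := by
  by_cases h : 1 ≤ x
  · exact ht_Rm_ne η (by omega)
  · rw [Rm_out η (by omega)]

theorem ht_Lm_zero (η : Cfg N) (x : ℕ) : ht (Lm x η) 0 = ht η 0 := by
  by_cases h : 1 ≤ x
  · exact ht_Lm_ne η (by omega)
  · rw [Lm_out η (by omega)]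

theorem hle_Rm {c : ℕ} {η ξ : Cfg N} (h : hle c η ξ) (x : ℕ) : hle c (Rm x η) (Rm x ξ) := by
  intro y
  by_cases hy : y = x
  · subst hy
    by_cases hh : 1 ≤ y ∧ y < N
    · rw [ht_Rm η hh.1 hh.2, ht_Rm ξ hh.1 hh.2]
      have a := h (y - 1)
      have b := h (y + 1)
      omega
    · rw [Rm_out η hh, Rm_out ξ hh]; exact h y
  · rw [ht_Rm_ne η hy, ht_Rm_ne ξ hy]; exact h y

theorem hle_Lm {c : ℕ} {η ξ : Cfg N} (h : hle c η ξ) (x : ℕ) : hle c (Lm x η) (Lm x ξ) := by
  intro y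
  by_cases hy : y = x
  · subst hy
    by_cases hh : 1 ≤ y ∧ y < N
    · rw [ht_Lm η hh.1 hh.2, ht_Lm ξ hh.1 hh.2]
      have a := h (y - 1)
      have b := h (y + 1)
      omega
    · rw [Lm_out η hh, Lm_out ξ hh]; exact h y
  · rw [ht_Lm_ne η hy, ht_Lm_ne ξ hy]; exact h y

theorem hle_RmS {c : ℕ} {η ξ : Cfg N} (h : hle c η ξ) (S : Finset ℕ) (x : ℕ) :
    hle c (RmS S x η) (RmS S x ξ) := by
  unfold RmS; split_ifs
  · exact hle_Rm h x
  · exact h

theorem hle_LmS {c : ℕ} {η ξ : Cfg N} (h : hle c η ξ) (S : Finset ℕ) (x : ℕ) :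
    hle c (LmS S x η) (LmS S x ξ) := by
  unfold LmS; split_ifs
  · exact hle_Lm h x
  · exact h

theorem hle_refl (η : Cfg N) : hle 0 η η := fun _ => le_rfl

theorem hle_trans {a b : ℕ} {η ξ ζ : Cfg N} (h1 : hle a η ξ) (h2 : hle b ξ ζ) :
    hle (a + b) η ζ := fun x => by have := h1 x; have := h2 x; omega

theorem hle_antisymm {η ξ : Cfg N} (h1 : hle 0 η ξ) (h2 : hle 0 ξ η) : η = ξ :=
  ext_ht fun x => le_antisymm (h1 x) (h2 x)

theorem ht_RmS_zero (S : Finset ℕ) (η : Cfg N) (x : ℕ) : ht (RmS S x η) 0 = ht η 0 := by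
  unfold RmS; split_ifs
  · exact ht_Rm_zero η x
  · rfl

theorem ht_LmS_zero (S : Finset ℕ) (η : Cfg N) (x : ℕ) : ht (LmS S x η) 0 = ht η 0 := by
  unfold LmS; split_ifs
  · exact ht_Lm_zero η x
  · rfl

theorem hle_RmS_self (S : Finset ℕ) (x : ℕ) (η : Cfg N) : hle 0 η (RmS S x η) := by
  intro y; unfold RmS; split_ifs
  · exact ht_Rm_ge η x y
  · exact le_rfl

theorem hle_LmS_self (S : Finset ℕ) (x : ℕ) (η : Cfg N) : hle 0 (LmS S x η) η := by
  intro y; unfold LmS; split_ifs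
  · exact ht_Lm_le η x y
  · exact le_rfl

/-! ### the step operator -/

section step

variable {r l : ℕ → ℝ} {S S' : Finset ℕ} {f g : Cfg N → ℝ}

/-- total mark probability -/
noncomputable def qtot (N : ℕ) (r l : ℕ → ℝ) : ℝ := (∑ x ∈ full N, (r x + l x)) / (2 * N)

theorem qtot_nonneg (h : Adm N r l) : 0 ≤ qtot N r l := by
  apply div_nonneg _ (by positivity)
  apply Finset.sum_nonneg
  intro x hx
  rw [full, Finset.mem_Ico] at hx
  obtain ⟨a, b, c, d⟩ := h x hx.1 hx.2
  linarith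

theorem qtot_le_one (h : Adm N r l) : qtot N r l ≤ 1 := by
  unfold qtot
  rcases Nat.eq_zero_or_pos N with h0 | h0
  · subst h0; simp
  rw [div_le_one (by positivity)]
  have h1 : ∑ x ∈ full N, (r x + l x) ≤ ∑ x ∈ full N, (2 : ℝ) := by
    apply Finset.sum_le_sum
    intro x hx
    rw [full, Finset.mem_Ico] at hx
    obtain ⟨a, b, c, d⟩ := h x hx.1 hx.2
    linarith
  refine h1.trans ?_
  rw [Finset.sum_const, full, Nat.card_Ico, nsmul_eq_mul]
  have : ((N - 1 : ℕ) : ℝ) ≤ N := by exact_mod_cast Nat.sub_le N 1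
  nlinarith

theorem stp_eq (r l : ℕ → ℝ) (S : Finset ℕ) (f : Cfg N → ℝ) (η : Cfg N) :
    stp r l S f η = (1 - qtot N r l) * f η +
      ∑ x ∈ full N, (r x / (2 * N) * f (RmS S x η) + l x / (2 * N) * f (LmS S x η)) := by
  unfold stp qtot
  rw [Finset.sum_div, Finset.sum_div, sub_mul, one_mul, Finset.sum_mul]
  have : ∀ x, (r x * (f (RmS S x η) - f η) + l x * (f (LmS S x η) - f η)) / (2 * (N : ℝ)) =
      (r x / (2 * N) * f (RmS S x η) + l x / (2 * N) * f (LmS S x η)) -
        (r x + l x) / (2 * N) * f η := by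
    intro x; ring
  simp_rw [this]
  rw [Finset.sum_sub_distrib]
  ring

/-- only the open bonds contribute -/
theorem stp_open (r l : ℕ → ℝ) (S : Finset ℕ) (f : Cfg N → ℝ) (η : Cfg N) :
    stp r l S f η = f η + (∑ x ∈ S, (r x * (f (Rm x η) - f η) + l x * (f (Lm x η) - f η))) /
      (2 * N) := by
  unfold stp
  congr 2
  have h1 : ∑ x ∈ full N, (r x * (f (RmS S x η) - f η) + l x * (f (LmS S x η) - f η)) =
      ∑ x ∈ full N ∩ S, (r x * (f (Rm x η) - f η) + l x * (f (Lm x η) - f η)) := by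
    rw [← Finset.sum_filter_add_sum_filter_not (full N) (fun x => x ∈ S)]
    rw [Finset.filter_mem_eq_inter]
    have h2 : ∑ x ∈ (full N).filter (fun x => ¬ x ∈ S),
        (r x * (f (RmS S x η) - f η) + l x * (f (LmS S x η) - f η)) = 0 := by
      apply Finset.sum_eq_zero
      intro x hx
      rw [Finset.mem_filter] at hx
      simp [RmS, LmS, hx.2]
    rw [h2, add_zero]
    apply Finset.sum_congr rfl
    intro x hx
    rw [Finset.mem_inter] at hx
    simp [RmS, LmS, hx.2]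
  rw [h1]
  apply Finset.sum_subset Finset.inter_subset_right
  intro x hx hx'
  have h3 : ¬ (1 ≤ x ∧ x < N) := by
    intro hh
    apply hx'
    rw [Finset.mem_inter, full, Finset.mem_Ico]
    exact ⟨hh, hx⟩
  rw [Rm_out η h3, Lm_out η h3]; ring

/-- general coupling principle for one step: compare mark by mark. -/
theorem stp_couple (h : Adm N r l) {η ξ : Cfg N} (h0 : f η ≤ g ξ)
    (hR : ∀ x, 1 ≤ x → x < N → f (RmS S x η) ≤ g (RmS S' x ξ))
    (hL : ∀ x, 1 ≤ x → x < N → f (LmS S x η) ≤ g (LmS S' x ξ)) :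
    stp r l S f η ≤ stp r l S' g ξ := by
  rw [stp_eq, stp_eq]
  apply add_le_add
  · exact mul_le_mul_of_nonneg_left h0 (by linarith [qtot_le_one h])
  · apply Finset.sum_le_sum
    intro x hx
    rw [full, Finset.mem_Ico] at hx
    obtain ⟨a, b, c, d⟩ := h x hx.1 hx.2
    apply add_le_add
    · exact mul_le_mul_of_nonneg_left (hR x hx.1 hx.2) (by positivity)
    · exact mul_le_mul_of_nonneg_left (hL x hx.1 hx.2) (by positivity)

theorem stp_mono (h : Adm N r l) (hfg : ∀ η, f η ≤ g η) (η : Cfg N) :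
    stp r l S f η ≤ stp r l S g η :=
  stp_couple h (hfg η) (fun _ _ _ => hfg _) (fun _ _ _ => hfg _)

theorem stp_const (r l : ℕ → ℝ) (S : Finset ℕ) (c : ℝ) (η : Cfg N) :
    stp r l S (fun _ => c) η = c := by
  simp [stp]

theorem stp_add (r l : ℕ → ℝ) (S : Finset ℕ) (f g : Cfg N → ℝ) (η : Cfg N) :
    stp r l S (fun ξ => f ξ + g ξ) η = stp r l S f η + stp r l S g η := by
  rw [stp_eq, stp_eq, stp_eq]
  have : ∀ x, (r x / (2 * (N : ℝ)) * (f (RmS S x η) + g (RmS S x η)) +
      l x / (2 * N) * (f (LmS S x η) + g (LmS S x η))) =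
      (r x / (2 * N) * f (RmS S x η) + l x / (2 * N) * f (LmS S x η)) +
      (r x / (2 * N) * g (RmS S x η) + l x / (2 * N) * g (LmS S x η)) := by intro x; ring
  simp_rw [this]
  rw [Finset.sum_add_distrib]; ring

theorem stp_smul (r l : ℕ → ℝ) (S : Finset ℕ) (c : ℝ) (f : Cfg N → ℝ) (η : Cfg N) :
    stp r l S (fun ξ => c * f ξ) η = c * stp r l S f η := by
  rw [stp_eq, stp_eq, mul_add, Finset.mul_sum]
  congr 1
  · ring
  · apply Finset.sum_congr rfl; intro x _; ring

theorem stp_sub (r l : ℕ → ℝ) (S : Finset ℕ) (f g : Cfg N → ℝ) (η : Cfg N) :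
    stp r l S (fun ξ => f ξ - g ξ) η = stp r l S f η - stp r l S g η := by
  have h1 : (fun ξ => f ξ - g ξ) = fun ξ => f ξ + (-1) * g ξ := by funext ξ; ring
  rw [h1, stp_add r l S f (fun ξ => (-1) * g ξ), stp_smul]; ring

theorem stp_sum {ι : Type*} (r l : ℕ → ℝ) (S : Finset ℕ) (s : Finset ι) (f : ι → Cfg N → ℝ)
    (η : Cfg N) :
    stp r l S (fun ξ => ∑ i ∈ s, f i ξ) η = ∑ i ∈ s, stp r l S (f i) η := by
  classical
  induction s using Finset.induction_on with
  | empty => simp [stp_const]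
  | insert a s ha ih =>
    simp_rw [Finset.sum_insert ha]
    rw [stp_add r l S (f a) (fun ξ => ∑ i ∈ s, f i ξ), ih]

theorem stp_congr_sector {k : ℕ} (hfg : ∀ η : Cfg N, ht η 0 = k → f η = g η) {η : Cfg N}
    (hη : ht η 0 = k) : stp r l S f η = stp r l S g η := by
  unfold stp
  rw [hfg η hη]
  congr 2
  apply Finset.sum_congr rfl
  intro x _
  rw [hfg _ ((ht_RmS_zero S η x).trans hη), hfg _ ((ht_LmS_zero S η x).trans hη)]

theorem stp_nonneg (h : Adm N r l) (hf : ∀ η, 0 ≤ f η) (η : Cfg N) : 0 ≤ stp r l S f η := by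
  have := stp_mono (S := S) h (f := fun _ => 0) (g := f) hf η
  rwa [stp_const] at this

/-- the step operator preserves increasing functions -/
theorem stp_inc (h : Adm N r l) {k : ℕ} (hf : Inc k f) : Inc k (stp r l S f) := by
  intro η ξ h1 h2 h3
  apply stp_couple h (hf η ξ h1 h2 h3)
  · intro x _ _
    exact hf _ _ ((ht_RmS_zero S η x).trans h1) ((ht_RmS_zero S ξ x).trans h2) (hle_RmS h3 S x)
  · intro x _ _
    exact hf _ _ ((ht_LmS_zero S η x).trans h1) ((ht_LmS_zero S ξ x).trans h2) (hle_LmS h3 S x)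

end step

/-! ### schedules -/

section sched

variable {r l : ℕ → ℝ}

@[simp] theorem ev_zero (σ : ℕ → Finset ℕ) (f : Cfg N → ℝ) : ev r l σ 0 f = f := rfl

theorem ev_succ (σ : ℕ → Finset ℕ) (m : ℕ) (f : Cfg N → ℝ) :
    ev r l σ (m + 1) f = stp r l (σ 0) (ev r l (fun i => σ (i + 1)) m f) := rfl

theorem ev_add (σ : ℕ → Finset ℕ) (m n : ℕ) (f : Cfg N → ℝ) :
    ev r l σ (m + n) f = ev r l σ m (ev r l (fun i => σ (i + m)) n f) := by
  induction m generalizing σ with
  | zero => simp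
  | succ m ih =>
    have e : m + 1 + n = (m + n) + 1 := by ring
    rw [e, ev_succ, ev_succ, ih]
    have : (fun i => σ (i + m + 1)) = fun i => σ (i + (m + 1)) := by funext i; ring_nf
    rw [this]

theorem ev_succ_last (σ : ℕ → Finset ℕ) (m : ℕ) (f : Cfg N → ℝ) :
    ev r l σ (m + 1) f = ev r l σ m (stp r l (σ m) f) := by
  rw [ev_add]
  congr 1
  simp [ev_succ]

theorem ev_congr {σ σ' : ℕ → Finset ℕ} {m : ℕ} (h : ∀ i, i < m → σ i = σ' i) (f : Cfg N → ℝ) :
    ev r l σ m f = ev r l σ' m f := by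
  induction m generalizing σ σ' with
  | zero => rfl
  | succ m ih =>
    rw [ev_succ, ev_succ, h 0 (by omega), ih (fun i hi => h (i + 1) (by omega))]

theorem ev_cat (σ σ' : ℕ → Finset ℕ) (m n : ℕ) (f : Cfg N → ℝ) :
    ev r l (cat m σ σ') (m + n) f = ev r l σ m (ev r l σ' n f) := by
  rw [ev_add]
  have h1 : ev r l (fun i => cat m σ σ' (i + m)) n f = ev r l σ' n f := by
    apply ev_congr; intro i _; simp [cat]
  rw [h1]
  apply ev_congr; intro i hi; simp [cat, hi]

theorem ev_mono (h : Adm N r l) {f g : Cfg N → ℝ} (hfg : ∀ η, f η ≤ g η) (σ : ℕ → Finset ℕ)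
    (m : ℕ) (η : Cfg N) : ev r l σ m f η ≤ ev r l σ m g η := by
  induction m generalizing σ η with
  | zero => exact hfg η
  | succ m ih => exact stp_mono h (fun ξ => ih _ ξ) η

theorem ev_const (σ : ℕ → Finset ℕ) (m : ℕ) (c : ℝ) (η : Cfg N) :
    ev r l σ m (fun _ => c) η = c := by
  induction m generalizing σ η with
  | zero => rfl
  | succ m ih =>
    rw [ev_succ]
    have : ev r l (fun i => σ (i + 1)) m (fun _ : Cfg N => c) = fun _ => c := by
      funext ξ; exact ih _ ξ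
    rw [this, stp_const]

theorem ev_add_fun (σ : ℕ → Finset ℕ) (m : ℕ) (f g : Cfg N → ℝ) (η : Cfg N) :
    ev r l σ m (fun ξ => f ξ + g ξ) η = ev r l σ m f η + ev r l σ m g η := by
  induction m generalizing σ η with
  | zero => rfl
  | succ m ih =>
    rw [ev_succ, ev_succ, ev_succ]
    have : ev r l (fun i => σ (i + 1)) m (fun ξ => f ξ + g ξ) =
        fun ξ => ev r l (fun i => σ (i + 1)) m f ξ + ev r l (fun i => σ (i + 1)) m g ξ := by
      funext ξ; exact ih _ ξ
    rw [this, stp_add]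

theorem ev_smul (σ : ℕ → Finset ℕ) (m : ℕ) (c : ℝ) (f : Cfg N → ℝ) (η : Cfg N) :
    ev r l σ m (fun ξ => c * f ξ) η = c * ev r l σ m f η := by
  induction m generalizing σ η with
  | zero => rfl
  | succ m ih =>
    rw [ev_succ, ev_succ]
    have : ev r l (fun i => σ (i + 1)) m (fun ξ => c * f ξ) =
        fun ξ => c * ev r l (fun i => σ (i + 1)) m f ξ := by
      funext ξ; exact ih _ ξ
    rw [this, stp_smul]

theorem ev_sub (σ : ℕ → Finset ℕ) (m : ℕ) (f g : Cfg N → ℝ) (η : Cfg N) :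
    ev r l σ m (fun ξ => f ξ - g ξ) η = ev r l σ m f η - ev r l σ m g η := by
  have h1 : (fun ξ => f ξ - g ξ) = fun ξ => f ξ + (-1) * g ξ := by funext ξ; ring
  rw [h1, ev_add_fun σ m f (fun ξ => (-1) * g ξ), ev_smul]; ring

theorem ev_sum {ι : Type*} (σ : ℕ → Finset ℕ) (m : ℕ) (s : Finset ι) (f : ι → Cfg N → ℝ)
    (η : Cfg N) :
    ev r l σ m (fun ξ => ∑ i ∈ s, f i ξ) η = ∑ i ∈ s, ev r l σ m (f i) η := by
  classical
  induction s using Finset.induction_on with
  | empty => simp [ev_const]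
  | insert a s ha ih =>
    simp_rw [Finset.sum_insert ha]
    rw [ev_add_fun σ m (f a) (fun ξ => ∑ i ∈ s, f i ξ), ih]

theorem ev_nonneg (h : Adm N r l) {f : Cfg N → ℝ} (hf : ∀ η, 0 ≤ f η) (σ : ℕ → Finset ℕ)
    (m : ℕ) (η : Cfg N) : 0 ≤ ev r l σ m f η := by
  have := ev_mono h (f := fun _ => 0) (g := f) hf σ m η
  rwa [ev_const] at this

theorem ev_inc (h : Adm N r l) {k : ℕ} {f : Cfg N → ℝ} (hf : Inc k f) (σ : ℕ → Finset ℕ)
    (m : ℕ) : Inc k (ev r l σ m f) := by
  induction m generalizing σ with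
  | zero => exact hf
  | succ m ih => exact stp_inc h (ih _)

theorem ev_congr_sector {k : ℕ} {f g : Cfg N → ℝ} (hfg : ∀ η : Cfg N, ht η 0 = k → f η = g η)
    (σ : ℕ → Finset ℕ) (m : ℕ) {η : Cfg N} (hη : ht η 0 = k) :
    ev r l σ m f η = ev r l σ m g η := by
  induction m generalizing σ η with
  | zero => exact hfg η hη
  | succ m ih =>
    rw [ev_succ, ev_succ]
    exact stp_congr_sector (fun ξ hξ => ih _ hξ) hη

/-- monotonicity on a sector -/
theorem ev_mono_sector (h : Adm N r l) {k : ℕ} {f g : Cfg N → ℝ}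
    (hfg : ∀ η : Cfg N, ht η 0 = k → f η ≤ g η)
    (σ : ℕ → Finset ℕ) (m : ℕ) {η : Cfg N} (hη : ht η 0 = k) :
    ev r l σ m f η ≤ ev r l σ m g η := by
  induction m generalizing σ η with
  | zero => exact hfg η hη
  | succ m ih =>
    rw [ev_succ, ev_succ]
    apply stp_couple h (ih _ hη)
    · intro x _ _; exact ih _ ((ht_RmS_zero _ η x).trans hη)
    · intro x _ _; exact ih _ ((ht_LmS_zero _ η x).trans hη)

/-- coupling principle along a schedule: a relation preserved by all marks -/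
theorem ev_couple (h : Adm N r l) {f g : Cfg N → ℝ} (σ σ' : ℕ → Finset ℕ) (m : ℕ)
    (Rel : ℕ → Cfg N → Cfg N → Prop)
    (hid : ∀ i η ξ, i < m → Rel i η ξ → Rel (i + 1) η ξ)
    (hR : ∀ i η ξ x, i < m → 1 ≤ x → x < N → Rel i η ξ →
      Rel (i + 1) (RmS (σ i) x η) (RmS (σ' i) x ξ))
    (hL : ∀ i η ξ x, i < m → 1 ≤ x → x < N → Rel i η ξ →
      Rel (i + 1) (LmS (σ i) x η) (LmS (σ' i) x ξ))
    (hfg : ∀ η ξ, Rel m η ξ → f η ≤ g ξ) {η ξ : Cfg N} (h0 : Rel 0 η ξ) :
    ev r l σ m f η ≤ ev r l σ' m g ξ := by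
  induction m generalizing σ σ' Rel η ξ with
  | zero => exact hfg η ξ h0
  | succ m ih =>
    rw [ev_succ, ev_succ]
    have key : ∀ η ξ, Rel 1 η ξ →
        ev r l (fun i => σ (i + 1)) m f η ≤ ev r l (fun i => σ' (i + 1)) m g ξ := by
      intro η ξ hr
      apply ih (fun i => σ (i + 1)) (fun i => σ' (i + 1)) (fun i => Rel (i + 1))
      · intro i a b hi hab; exact hid (i + 1) a b (by omega) hab
      · intro i a b x hi h1 h2 hab; exact hR (i + 1) a b x (by omega) h1 h2 hab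
      · intro i a b x hi h1 h2 hab; exact hL (i + 1) a b x (by omega) h1 h2 hab
      · exact hfg
      · exact hr
    apply stp_couple h
    · exact key _ _ (hid 0 η ξ (by omega) h0)
    · intro x h1 h2; exact key _ _ (hR 0 η ξ x (by omega) h1 h2 h0)
    · intro x h1 h2; exact key _ _ (hL 0 η ξ x (by omega) h1 h2 h0)

/-- coupling principle with exceptional sets `B i` (depending on the first process only) -/
theorem ev_couple_err (h : Adm N r l) {f g : Cfg N → ℝ} (σ σ' : ℕ → Finset ℕ) (m : ℕ)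
    (B : ℕ → Set (Cfg N)) (hf1 : ∀ η, f η ≤ 1) (hg0 : ∀ η, 0 ≤ g η)
    (Rel : ℕ → Cfg N → Cfg N → Prop)
    (hid : ∀ i η ξ, i < m → Rel i η ξ → η ∉ B (i + 1) → Rel (i + 1) η ξ)
    (hR : ∀ i η ξ x, i < m → 1 ≤ x → x < N → Rel i η ξ → RmS (σ i) x η ∉ B (i + 1) →
      Rel (i + 1) (RmS (σ i) x η) (RmS (σ' i) x ξ))
    (hL : ∀ i η ξ x, i < m → 1 ≤ x → x < N → Rel i η ξ → LmS (σ i) x η ∉ B (i + 1) →
      Rel (i + 1) (LmS (σ i) x η) (LmS (σ' i) x ξ))
    (hfg : ∀ η ξ, Rel m η ξ → f η ≤ g ξ) {η ξ : Cfg N} (h0 : Rel 0 η ξ) :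
    ev r l σ m f η ≤ ev r l σ' m g ξ + ∑ i ∈ Finset.Ico 1 (m + 1), pr r l σ i (B i) η := by
  induction m generalizing σ σ' B Rel η ξ with
  | zero => simpa using hfg η ξ h0
  | succ m ih =>
    have hsum : ∑ i ∈ Finset.Ico 1 (m + 1 + 1), pr r l σ i (B i) η =
        stp r l (σ 0) (fun ζ => ind (B 1) ζ + ∑ i ∈ Finset.Ico 1 (m + 1),
          pr r l (fun i => σ (i + 1)) i (B (i + 1)) ζ) η := by
      rw [stp_add r l (σ 0) (ind (B 1)), stp_sum]
      rw [Finset.sum_eq_sum_Ico_succ_bot (by omega : 1 < m + 1 + 1)]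
      congr 1
      rw [Finset.sum_Ico_eq_sum_range, Finset.sum_Ico_eq_sum_range]
      have : m + 1 + 1 - (1 + 1) = m + 1 - 1 := by omega
      rw [this]
      apply Finset.sum_congr rfl
      intro i _
      have e : 1 + 1 + i = (1 + i) + 1 := by ring
      rw [e]
      unfold pr
      rw [ev_succ]
    rw [hsum, ev_succ, ev_succ, ← sub_le_iff_le_add,
      ← stp_sub r l (σ 0) (ev r l (fun i => σ (i + 1)) m f)]
    have g0 : ∀ ζ, 0 ≤ ev r l (fun i => σ' (i + 1)) m g ζ := ev_nonneg h hg0 _ _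
    have f1 : ∀ ζ, ev r l (fun i => σ (i + 1)) m f ζ ≤ 1 := by
      intro ζ
      have := ev_mono h (f := f) (g := fun _ => 1) hf1 (fun i => σ (i + 1)) m ζ
      rwa [ev_const] at this
    have s0 : ∀ ζ, 0 ≤ ∑ i ∈ Finset.Ico 1 (m + 1),
        pr r l (fun i => σ (i + 1)) i (B (i + 1)) ζ := by
      intro ζ
      apply Finset.sum_nonneg
      intro i _
      apply ev_nonneg h
      intro a; unfold ind; split_ifs <;> norm_num
    have key : ∀ a b, (a ∉ B 1 → Rel 1 a b) →
        ev r l (fun i => σ (i + 1)) m f a - (ind (B 1) a + ∑ i ∈ Finset.Ico 1 (m + 1),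
          pr r l (fun i => σ (i + 1)) i (B (i + 1)) a) ≤
          ev r l (fun i => σ' (i + 1)) m g b := by
      intro a b hab
      by_cases hb : a ∈ B 1
      · have : ind (B 1) a = 1 := by simp [ind, hb]
        rw [this]
        linarith [g0 b, f1 a, s0 a]
      · have h3 : ind (B 1) a = 0 := by simp [ind, hb]
        have h4 := ih (fun i => σ (i + 1)) (fun i => σ' (i + 1)) (fun i => B (i + 1))
          (fun i => Rel (i + 1))
          (fun i a b hi hab => hid (i + 1) a b (by omega) hab)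
          (fun i a b x hi h1 h2 hab => hR (i + 1) a b x (by omega) h1 h2 hab)
          (fun i a b x hi h1 h2 hab => hL (i + 1) a b x (by omega) h1 h2 hab)
          hfg (hab hb)
        rw [h3]
        linarith
    apply stp_couple h
    · exact key _ _ (fun hb => hid 0 η ξ (by omega) h0 hb)
    · intro x h1 h2; exact key _ _ (fun hb => hR 0 η ξ x (by omega) h1 h2 h0 hb)
    · intro x h1 h2; exact key _ _ (fun hb => hL 0 η ξ x (by omega) h1 h2 h0 hb)

/-! ### probabilities -/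

theorem ind_nonneg (A : Set (Cfg N)) (η : Cfg N) : 0 ≤ ind A η := by
  unfold ind; split_ifs <;> norm_num

theorem ind_le_one (A : Set (Cfg N)) (η : Cfg N) : ind A η ≤ 1 := by
  unfold ind; split_ifs <;> norm_num

theorem ind_of_mem {A : Set (Cfg N)} {η : Cfg N} (h : η ∈ A) : ind A η = 1 := by simp [ind, h]

theorem ind_of_not_mem {A : Set (Cfg N)} {η : Cfg N} (h : η ∉ A) : ind A η = 0 := by
  simp [ind, h]

theorem ind_compl (A : Set (Cfg N)) (η : Cfg N) : ind Aᶜ η = 1 - ind A η := by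
  by_cases h : η ∈ A <;> simp [ind, h]

theorem pr_nonneg (h : Adm N r l) (σ : ℕ → Finset ℕ) (m : ℕ) (A : Set (Cfg N)) (η : Cfg N) :
    0 ≤ pr r l σ m A η := ev_nonneg h (ind_nonneg A) σ m η

theorem pr_le_one (h : Adm N r l) (σ : ℕ → Finset ℕ) (m : ℕ) (A : Set (Cfg N)) (η : Cfg N) :
    pr r l σ m A η ≤ 1 := by
  have := ev_mono h (f := ind A) (g := fun _ => 1) (ind_le_one A) σ m η
  rwa [ev_const] at this

theorem pr_mono (h : Adm N r l) (σ : ℕ → Finset ℕ) (m : ℕ) {A B : Set (Cfg N)} (hAB : A ⊆ B)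
    (η : Cfg N) : pr r l σ m A η ≤ pr r l σ m B η := by
  apply ev_mono h
  intro ξ
  by_cases h1 : ξ ∈ A
  · rw [ind_of_mem h1, ind_of_mem (hAB h1)]
  · rw [ind_of_not_mem h1]; exact ind_nonneg B ξ

theorem pr_mono_sector (h : Adm N r l) {k : ℕ} (σ : ℕ → Finset ℕ) (m : ℕ) {A B : Set (Cfg N)}
    (hAB : ∀ ξ, ht ξ 0 = k → ξ ∈ A → ξ ∈ B) {η : Cfg N} (hη : ht η 0 = k) :
    pr r l σ m A η ≤ pr r l σ m B η := by
  apply ev_mono_sector h _ σ m hη
  intro ξ hξ
  by_cases h1 : ξ ∈ A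
  · rw [ind_of_mem h1, ind_of_mem (hAB ξ hξ h1)]
  · rw [ind_of_not_mem h1]; exact ind_nonneg B ξ

theorem pr_compl (σ : ℕ → Finset ℕ) (m : ℕ) (A : Set (Cfg N)) (η : Cfg N) :
    pr r l σ m Aᶜ η = 1 - pr r l σ m A η := by
  unfold pr
  have : ind Aᶜ = fun ξ : Cfg N => (fun _ => (1 : ℝ)) ξ - ind A ξ := by
    funext ξ; exact ind_compl A ξ
  rw [this, ev_sub σ m (fun _ => (1 : ℝ)) (ind A), ev_const]

theorem pr_union (h : Adm N r l) (σ : ℕ → Finset ℕ) (m : ℕ) (A B : Set (Cfg N)) (η : Cfg N) :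
    pr r l σ m (A ∪ B) η ≤ pr r l σ m A η + pr r l σ m B η := by
  unfold pr
  rw [← ev_add_fun σ m (ind A) (ind B)]
  apply ev_mono h
  intro ξ
  by_cases h1 : ξ ∈ A
  · rw [ind_of_mem h1, ind_of_mem (Or.inl h1)]; linarith [ind_nonneg B ξ]
  · by_cases h2 : ξ ∈ B
    · rw [ind_of_mem h2, ind_of_mem (Or.inr h2)]; linarith [ind_nonneg A ξ]
    · rw [ind_of_not_mem (by simp [h1, h2])]; linarith [ind_nonneg A ξ, ind_nonneg B ξ]

theorem pr_biUnion {ι : Type*} (h : Adm N r l) (σ : ℕ → Finset ℕ) (m : ℕ) (s : Finset ι)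
    (A : ι → Set (Cfg N)) (η : Cfg N) :
    pr r l σ m (⋃ i ∈ s, A i) η ≤ ∑ i ∈ s, pr r l σ m (A i) η := by
  unfold pr
  rw [← ev_sum]
  apply ev_mono h
  intro ξ
  by_cases h1 : ξ ∈ ⋃ i ∈ s, A i
  · rw [ind_of_mem h1]
    simp only [Set.mem_iUnion, exists_prop] at h1
    obtain ⟨i, hi, hi'⟩ := h1
    have := Finset.single_le_sum (f := fun i => ind (A i) ξ) (fun j _ => ind_nonneg (A j) ξ) hi
    rw [ind_of_mem hi'] at this
    exact this
  · rw [ind_of_not_mem h1]
    exact Finset.sum_nonneg fun j _ => ind_nonneg (A j) ξ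

/-- Chapman-Kolmogorov type bound for failures: after `m` steps not in `A` with probability at
most `a`; from every state of `A` (in the sector) the second stage misses `B` with probability at
most `b`. -/
theorem pr_cat_fail (h : Adm N r l) {k : ℕ} (σ σ' : ℕ → Finset ℕ) (m n : ℕ) {A B : Set (Cfg N)}
    {a b : ℝ} {η : Cfg N} (hη : ht η 0 = k) (ha : pr r l σ m Aᶜ η ≤ a) (hb0 : 0 ≤ b)
    (hb : ∀ ξ : Cfg N, ht ξ 0 = k → ξ ∈ A → pr r l σ' n Bᶜ ξ ≤ b) :
    pr r l (cat m σ σ') (m + n) Bᶜ η ≤ a + b := by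
  unfold pr
  rw [ev_cat]
  have h1 : ev r l σ m (ev r l σ' n (ind Bᶜ)) η ≤
      ev r l σ m (fun ξ => ind Aᶜ ξ + b) η := by
    apply ev_mono_sector h _ σ m hη
    intro ξ hξ
    by_cases h2 : ξ ∈ A
    · have := hb ξ hξ h2
      unfold pr at this
      linarith [ind_nonneg Aᶜ ξ]
    · rw [ind_of_mem (show ξ ∈ Aᶜ from h2)]
      have := pr_le_one h σ' n Bᶜ ξ
      unfold pr at this
      linarith
  refine h1.trans ?_
  rw [ev_add_fun σ m (ind Aᶜ) (fun _ => b), ev_const]
  unfold pr at ha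
  linarith

/-- monotonicity in time from the lowest state, for increasing functions: a step from a state which
is below all its successors -/
theorem pr_Inc_ind {k : ℕ} {A : Set (Cfg N)}
    (hA : ∀ η ξ : Cfg N, ht η 0 = k → ht ξ 0 = k → hle 0 η ξ → η ∈ A → ξ ∈ A) :
    Inc k (ind A) := by
  intro η ξ h1 h2 h3
  by_cases h : η ∈ A
  · rw [ind_of_mem h, ind_of_mem (hA η ξ h1 h2 h3 h)]
  · rw [ind_of_not_mem h]; exact ind_nonneg A ξ

end sched

/-! ### extreme states -/

theorem occ_bot (k : ℕ) {i : ℕ} : occ (bot N k) i = true ↔ i < k ∧ i < N := by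
  unfold occ bot; split_ifs with h <;> simp [h]

theorem occ_top (k : ℕ) {i : ℕ} : occ (top N k) i = true ↔ N ≤ i + k ∧ i < N := by
  unfold occ top; split_ifs with h <;> simp [h]

theorem ht_bot {k : ℕ} (hk : k ≤ N) (x : ℕ) : ht (bot N k) x = k - x := by
  -- downward induction from N
  have h : ∀ d, d ≤ N → ht (bot N k) (N - d) = k - (N - d) := by
    intro d
    induction d with
    | zero => intro _; rw [ht_ge (by omega)]; omega
    | succ d ih =>
      intro hd
      have e : N - (d + 1) + 1 = N - d := by omega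
      rw [ht_succ _ (by omega : N - (d + 1) < N), e, ih (by omega)]
      by_cases hh : N - (d + 1) < k
      · rw [if_pos (by rw [occ_bot]; exact ⟨hh, by omega⟩)]; omega
      · rw [if_neg (by rw [occ_bot]; omega)]; omega
  rcases le_or_gt x N with hx | hx
  · have := h (N - x) (by omega)
    have e : N - (N - x) = x := by omega
    rwa [e] at this
  · rw [ht_ge (by omega)]; omega

theorem ht_top {k : ℕ} (hk : k ≤ N) (x : ℕ) : ht (top N k) x = min k (N - x) := by
  have h : ∀ d, d ≤ N → ht (top N k) (N - d) = min k d := by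
    intro d
    induction d with
    | zero => intro _; rw [ht_ge (by omega)]; omega
    | succ d ih =>
      intro hd
      have e : N - (d + 1) + 1 = N - d := by omega
      rw [ht_succ _ (by omega : N - (d + 1) < N), e, ih (by omega)]
      by_cases hh : d < k
      · rw [if_pos (by rw [occ_top]; omega)]; omega
      · rw [if_neg (by rw [occ_top]; omega)]; omega
  rcases le_or_gt x N with hx | hx
  · have := h (N - x) (by omega)
    have e : N - (N - x) = x := by omega
    rwa [e] at this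
  · rw [ht_ge (by omega)]; omega

theorem hle_bot {k : ℕ} (hk : k ≤ N) {η : Cfg N} (hη : ht η 0 = k) : hle 0 (bot N k) η := by
  intro x
  rw [ht_bot hk]
  have := ht_le_sub η (Nat.zero_le x)
  omega

theorem hle_top {k : ℕ} (hk : k ≤ N) {η : Cfg N} (hη : ht η 0 = k) : hle 0 η (top N k) := by
  intro x
  rw [ht_top hk]
  have h1 := ht_le η x
  have h2 := ht_anti η (Nat.zero_le x)
  omega

theorem ht_bot_zero {k : ℕ} (hk : k ≤ N) : ht (bot N k) 0 = k := by rw [ht_bot hk]; omega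

theorem ht_top_zero {k : ℕ} (hk : k ≤ N) : ht (top N k) 0 = k := by rw [ht_top hk]; omega

end Pool.Agent.Helper98.EX
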