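import Mathlib

/-!
# The simple exclusion process in an environment on a segment: model of the problem

Site `i : Fin N` is the site `i+1` of the problem; `w i` is the environment at that site.
-/

namespace Pool.Agent.Helper98.EX

open Finset

/-- configurations of `k` particles on `N` sites -/
abbrev Conf (N k : ℕ) := {η : Fin N → Bool // (Finset.univ.filter (fun i => η i = true)).card = k}

/-- the configuration with the values at the sites `x` and `y` exchanged -/
def exch {N k : ℕ} (η : Conf N k) (x y : Fin N) : Conf N k :=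
  ⟨fun i => η.1 (Equiv.swap x y i), by
    refine Eq.trans ?_ η.2
    apply Finset.card_bij (fun i _ => Equiv.swap x y i)
    · intro i hi
      simpa using hi
    · intro i _ j _ hij
      exact (Equiv.swap x y).injective hij
    · intro j hj
      exact ⟨Equiv.swap x y j, by simpa using hj, by simp⟩⟩

/-- jump rate of a particle from `x` to `y`: `w x` to the right neighbour, `1 - w x` to the left
neighbour -/
noncomputable def jr (w : ℕ → ℝ) {N : ℕ} (x y : Fin N) : ℝ :=
  if y.val = x.val + 1 then w x else if x.val = y.val + 1 then 1 - w x else 0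

/-- the generator -/
noncomputable def genC (w : ℕ → ℝ) {N k : ℕ} (f : Conf N k → ℝ) (η : Conf N k) : ℝ :=
  ∑ x : Fin N, ∑ y : Fin N,
    (if η.1 x = true ∧ η.1 y = false then jr w x y * (f (exch η x y) - f η) else 0)

/-- the generator as a matrix -/
noncomputable def genM (w : ℕ → ℝ) (N k : ℕ) : Matrix (Conf N k) (Conf N k) ℝ :=
  fun η ξ => genC w (fun ζ => if ζ = ξ then 1 else 0) η

/-- transition probabilities at time `t` -/
noncomputable def Pt (w : ℕ → ℝ) (N k : ℕ) (t : ℝ) : Matrix (Conf N k) (Conf N k) ℝ :=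
  NormedSpace.exp (t • genM w N k)

/-- stationary law -/
structure IsStatC (w : ℕ → ℝ) (N k : ℕ) (π : Conf N k → ℝ) : Prop where
  nonneg : ∀ η, 0 ≤ π η
  total : ∑ η, π η = 1
  stat : ∀ ξ, ∑ η, π η * genM w N k η ξ = 0

/-- total variation distance -/
noncomputable def tv {N k : ℕ} (μ ν : Conf N k → ℝ) : ℝ := 1 / 2 * ∑ ξ, |μ ξ - ν ξ|

/-- mixing time -/
noncomputable def tmix (w : ℕ → ℝ) (N k : ℕ) (π : Conf N k → ℝ) (ε : ℝ) : ℝ :=
  sInf {t : ℝ | 0 ≤ t ∧ ∀ ψ : Conf N k, tv (Pt w N k t ψ) π < ε}

end Pool.Agent.Helper98.EX
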