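import Pool.Agent.Helper98.EX.Stmts2
import Pool.Agent.Helper98.EX.Model

/-!
# Parts D, E, F: continuous time, random environment, final theorem
-/

namespace Pool.Agent.Helper98.EX

open Finset MeasureTheory ProbabilityTheory Filter
open scoped Topology

/-- right bond rates of an environment -/
def rE (w : ℕ → ℝ) : ℕ → ℝ := fun x => w (x - 1)

/-- left bond rates of an environment -/
def lE (w : ℕ → ℝ) : ℕ → ℝ := fun x => 1 - w x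

/-- Poisson weights -/
noncomputable def poi (lam : ℝ) (m : ℕ) : ℝ := Real.exp (-lam) * lam ^ m / (m.factorial : ℝ)

open Classical in
/-- extension of a function on the sector by zero -/
noncomputable def extC {N k : ℕ} (π : Conf N k → ℝ) (η : Cfg N) : ℝ :=
  if h : (Finset.univ.filter (fun i => η i = true)).card = k then π ⟨η, h⟩ else 0

/-! ### Part D -/

/-- Poissonization -/
def ST_POI : Prop := ∀ (N k : ℕ) (w : ℕ → ℝ) (t : ℝ) (f : Cfg N → ℝ) (η : Conf N k), 1 ≤ N → 0 ≤ t →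
  HasSum (fun m : ℕ => poi (2 * N * t) m * ev (rE w) (lE w) (fun _ => full N) m f η.1)
    (∑ ξ, Pt w N k t η ξ * f ξ.1)

/-- Poisson tails -/
def ST_POITAIL : Prop := ∀ lam : ℝ, 0 ≤ lam → HasSum (poi lam) 1 ∧
  (∀ a : ℝ, a < lam → ∑' m : ℕ, (if (m : ℝ) ≤ a then poi lam m else 0) ≤ lam / (lam - a) ^ 2) ∧
  (∀ a : ℝ, lam < a → ∑' m : ℕ, (if a ≤ (m : ℝ) then poi lam m else 0) ≤ lam / (a - lam) ^ 2)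

/-- stationary laws in discrete and continuous time; height and number of particles -/
def ST_STC : Prop := ∀ (N k : ℕ) (w : ℕ → ℝ), 1 ≤ N → k ≤ N → (∀ x, 0 < w x ∧ w x ≤ 1) →
  (∀ η : Cfg N, ht η 0 = (Finset.univ.filter (fun i => η i = true)).card) ∧
  (∃! π : Conf N k → ℝ, IsStatC w N k π) ∧
  (∀ π : Conf N k → ℝ, IsStatC w N k π → IsStat N k (rE w) (lE w) (extC π))

/-- the top state is hit eventually -/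
def ST_NH0 : Prop := ∀ (N k : ℕ) (r l : ℕ → ℝ) (e : ℝ), 1 ≤ N → k ≤ N → Adm N r l → 0 < e →
  ∃ m : ℕ, nohit r l (full N) {top N k} m (bot N k) ≤ e

/-- upper bound of the distance to equilibrium -/
def ST_TVUP : Prop := ∀ (N k : ℕ) (w : ℕ → ℝ) (π : Conf N k → ℝ) (t : ℝ) (ψ : Conf N k) (m2 : ℕ)
  (e : ℝ), 1 ≤ N → k ≤ N → (∀ x, 0 < w x ∧ w x ≤ 1) → IsStatC w N k π → 0 ≤ t →
  nohit (rE w) (lE w) (full N) {top N k} m2 (bot N k) ≤ e →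
  tv (Pt w N k t ψ) π ≤ e + ∑' m : ℕ, (if (m : ℝ) < m2 then poi (2 * N * t) m else 0)

/-- lower bound of the distance to equilibrium -/
def ST_TVLOW : Prop := ∀ (N k : ℕ) (w : ℕ → ℝ) (π : Conf N k → ℝ) (t : ℝ) (ψ : Conf N k)
  (A : Set (Cfg N)), 1 ≤ N → k ≤ N → (∀ x, 0 < w x ∧ w x ≤ 1) → IsStatC w N k π → 0 ≤ t →
  ψ.1 = bot N k →
  ∑ η, extC π η * ind A η - tv (Pt w N k t ψ) π ≤
    ∑' m : ℕ, poi (2 * N * t) m * pr (rE w) (lE w) (fun _ => full N) m A (bot N k)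

/-- from the discrete statement to the ratio of mixing times -/
def ST_CUT : Prop := ∀ (ε δ c : ℝ), 0 < ε → ε < 1 / 2 → 0 < δ → δ < 1 → 0 < c →
  ∃ N0 : ℕ, ∀ (N k : ℕ) (w : ℕ → ℝ) (π : Conf N k → ℝ) (A : Set (Cfg N)), N0 ≤ N → k ≤ N →
  (∀ x, 0 < w x ∧ w x ≤ 1) → IsStatC w N k π → Inc k (ind A) →
  ∑ η, extC π η * ind Aᶜ η ≤ ε / 4 →
  (∀ m1 : ℕ, ε / 4 ≤ pr (rE w) (lE w) (fun _ => full N) m1 A (bot N k) →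
    c * N ≤ (m1 : ℝ) / (2 * N) ∧
    nohit (rE w) (lE w) (full N) {top N k} ⌈(1 + δ) * (m1 : ℝ)⌉₊ (bot N k) ≤ ε / 4) →
  |tmix w N k π ε / tmix w N k π (1 - ε) - 1| ≤ 15 * δ

/-! ### Part E: random environment -/

/-- i.i.d. environment with values in `(0,1]` -/
structure IIDE {Ω : Type} [MeasurableSpace Ω] (P : Measure Ω) (X : ℕ → Ω → ℝ) : Prop where
  prob : IsProbabilityMeasure P
  meas : ∀ x, Measurable (X x)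
  indep : iIndepFun X P
  ident : ∀ x, IdentDistrib (X x) (X 0) P P
  rng : ∀ x ω, 0 < X x ω ∧ X x ω ≤ 1

/-- the environment at `ω` -/
def EE {Ω : Type} (X : ℕ → Ω → ℝ) (ω : Ω) : ℕ → ℝ := fun x => X x ω

/-- moment of `ρ = (1-ω)/ω` -/
noncomputable def Mom {Ω : Type} [MeasurableSpace Ω] (P : Measure Ω) (X : ℕ → Ω → ℝ) (s : ℝ) :
    ENNReal := ∫⁻ ω, ENNReal.ofReal (((1 - X 0 ω) / X 0 ω) ^ s) ∂P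

/-- moment bounds of the resistance ratios -/
def ST_MOM : Prop := ∀ (Ω : Type) [MeasurableSpace Ω] (P : Measure Ω) (X : ℕ → Ω → ℝ) (s θ : ℝ),
  IIDE P X → 1 ≤ s → 0 < θ → θ < 1 → Mom P X s ≤ ENNReal.ofReal θ → ∃ C : ℝ, 0 < C ∧
  ∀ z x : ℕ, z ≤ x →
    ∫⁻ ω, ENNReal.ofReal (RR (rE (EE X ω)) (lE (EE X ω)) z x ^ s) ∂P ≤
      ENNReal.ofReal (C * θ ^ (x - z)) ∧
    ∫⁻ ω, ENNReal.ofReal ((RR (rE (EE X ω)) (lE (EE X ω)) z x / X x ω) ^ s) ∂P ≤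
      ENNReal.ofReal (C * θ ^ (x - z)) ∧
    (1 ≤ z → ∫⁻ ω, ENNReal.ofReal ((RR (rE (EE X ω)) (lE (EE X ω)) z x / X (z - 1) ω) ^ s) ∂P ≤
      ENNReal.ofReal (C * θ ^ (x - z)))

/-- lower moments -/
def ST_JEN : Prop := ∀ (Ω : Type) [MeasurableSpace Ω] (P : Measure Ω) (X : ℕ → Ω → ℝ) (s : ℝ),
  IIDE P X → 1 ≤ s → Mom P X s < 1 → ∃ θ : ℝ, 0 < θ ∧ θ < 1 ∧ Mom P X 1 ≤ ENNReal.ofReal θ ∧
    Mom P X s ≤ ENNReal.ofReal θ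

/-- far pairs, crude bounds -/
def ST_EVFAR : Prop := ∀ (Ω : Type) [MeasurableSpace Ω] (P : Measure Ω) (X : ℕ → Ω → ℝ) (θ : ℝ),
  IIDE P X → 0 < θ → θ < 1 → Mom P X 1 ≤ ENNReal.ofReal θ → ∀ ηp : ℝ, 0 < ηp →
  ∃ N0 : ℕ, ∀ N w : ℕ, N0 ≤ N → 15 / Real.log (1 / θ) * Real.log N ≤ w →
  P {ω | ¬ ((∀ z x, z + w ≤ x → x < N →
        RR (rE (EE X ω)) (lE (EE X ω)) z x ≤ (N : ℝ) ^ (-12 : ℝ)) ∧
      (∀ z x, z ≤ x → x < N → RR (rE (EE X ω)) (lE (EE X ω)) z x ≤ (N : ℝ) ^ (2 : ℝ)) ∧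
      (∀ x, 1 ≤ x → x < N → (N : ℝ) ^ (-2 : ℝ) ≤ rE (EE X ω) x))} ≤ ENNReal.ofReal ηp

/-- sums of the travel weights are of order `N` -/
def ST_EVSUM : Prop := ∀ (Ω : Type) [MeasurableSpace Ω] (P : Measure Ω) (X : ℕ → Ω → ℝ) (θ : ℝ),
  IIDE P X → 0 < θ → θ < 1 → Mom P X 1 ≤ ENNReal.ofReal θ → ∀ ηp : ℝ, 0 < ηp →
  ∃ (C1 ηm : ℝ), 0 ≤ C1 ∧ 0 < ηm ∧ ∀ (η0 : ℝ) (N w : ℕ), 0 < η0 → η0 ≤ ηm → 1 ≤ N →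
  P {ω | ¬ (∑ y ∈ Finset.range (N - 1), atl (rE (EE X ω)) (lE (EE X ω)) η0 w y ≤ C1 * N ∧
      ∑ y ∈ Finset.range (N - 1),
        atl (mirr N (rE (EE X ω))) (mirr N (lE (EE X ω))) η0 w y ≤ C1 * N)} ≤ ENNReal.ofReal ηp

/-- conditions near the interface -/
def ST_EVNEAR : Prop := ∀ (Ω : Type) [MeasurableSpace Ω] (P : Measure Ω) (X : ℕ → Ω → ℝ) (θ : ℝ),
  IIDE P X → 0 < θ → θ < 1 → Mom P X 1 ≤ ENNReal.ofReal θ → ∀ ηp e0 : ℝ, 0 < ηp → 0 < e0 →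
  ∃ (Cs c1 : ℝ) (m0 : ℕ), 0 ≤ Cs ∧ 0 < c1 ∧ c1 ≤ 1 ∧ ∀ γ : ℝ, 0 < γ → ∃ N0 : ℕ,
  ∀ N k w : ℕ, N0 ≤ N → k ≤ N → 3 * w ≤ N - k → (N - k) + 3 * w ≤ N → (w : ℝ) ≤ Real.log N ^ 2 →
  P {ω | ¬ ((∀ z x, N - k ≤ z + 3 * w → z ≤ x → x < N - k + 3 * w →
        RR (rE (EE X ω)) (lE (EE X ω)) z x ≤ (N : ℝ) ^ (γ / 20)) ∧
      (∀ b, N - k < b + 3 * w → b < N - k + 3 * w → (N : ℝ) ^ (-(γ / 20)) ≤ rE (EE X ω) b) ∧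
      ∑ z ∈ Finset.Ico (N - k - 3 * w) (N - k), RR (rE (EE X ω)) (lE (EE X ω)) z (N - k) +
        ∑ x ∈ Finset.Ico (N - k) (N - k + 3 * w), RR (rE (EE X ω)) (lE (EE X ω)) (N - k) x ≤ Cs ∧
      tails N k (rE (EE X ω)) (lE (EE X ω)) m0 ≤ e0 ∧
      (∀ b, 1 ≤ b → b < N → N ≤ b + k + m0 → b + k ≤ N + m0 → c1 ≤ rE (EE X ω) b))} ≤
    ENNReal.ofReal ηp

/-- `v` is at most the value of the window `[z,y]` (particle type or hole type) -/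
def WV {Ω : Type} (X : ℕ → Ω → ℝ) (ω : Ω) (z y : ℕ) (v : ℝ) : Prop :=
  v ≤ RR (rE (EE X ω)) (lE (EE X ω)) z y / X y ω ∨
    (1 ≤ z ∧ v ≤ RR (rE (EE X ω)) (lE (EE X ω)) z y / X (z - 1) ω)

/-- size of the largest window value -/
def ST_EVMAX : Prop := ∀ (Ω : Type) [MeasurableSpace Ω] (P : Measure Ω) (X : ℕ → Ω → ℝ) (s θ : ℝ),
  IIDE P X → 1 ≤ s → 0 < θ → θ < 1 → Mom P X s ≤ ENNReal.ofReal θ → ∀ ηp γ : ℝ, 0 < ηp → 0 < γ →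
  ∃ N0 : ℕ, ∀ N : ℕ, N0 ≤ N →
  P {ω | ∃ z y, z ≤ y ∧ y < N ∧ WV X ω z y ((N : ℝ) ^ (1 / s + γ))} ≤ ENNReal.ofReal ηp

/-- the largest window value is attained (up to `N^γ`) in the bulk -/
def ST_EXCH : Prop := ∀ (Ω : Type) [MeasurableSpace Ω] (P : Measure Ω) (X : ℕ → Ω → ℝ) (θ : ℝ),
  IIDE P X → 0 < θ → θ < 1 → Mom P X 1 ≤ ENNReal.ofReal θ → ∀ ηp : ℝ, 0 < ηp →
  ∃ c2 : ℝ, 0 < c2 ∧ c2 < 1 / 4 ∧ ∀ γ : ℝ, 0 < γ → ∃ N0 : ℕ, ∀ N w : ℕ, N0 ≤ N →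
  (w : ℝ) ≤ Real.log N ^ 2 →
  P {ω | ∃ (z y : ℕ) (v : ℝ), z ≤ y ∧ y < z + w ∧ y < N ∧ WV X ω z y v ∧ (N : ℝ) ^ γ < v ∧
      ¬ ∃ A B : ℕ, c2 * N ≤ A ∧ A ≤ B ∧ B < A + w ∧ (B : ℝ) + 1 ≤ (1 - c2) * N ∧ WV X ω A B v} ≤
    ENNReal.ofReal ηp

/-- the environment is good with high probability -/
def ST_ENV : Prop := ∀ (Ω : Type) [MeasurableSpace Ω] (P : Measure Ω) (X : ℕ → Ω → ℝ) (s : ℝ),
  IIDE P X → 3 / 2 < s → Mom P X s < 1 → ∀ c ηp e0 : ℝ, 0 < c → 0 < ηp → 0 < e0 →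
  ∃ (γ η0 Cs C1 c1 c2 : ℝ) (m0 : ℕ), 0 < γ ∧ γ ≤ 1 ∧ 0 < η0 ∧ η0 ≤ 1 ∧ 0 ≤ Cs ∧ 0 ≤ C1 ∧ 0 < c1 ∧
  c1 ≤ 1 ∧ 0 < c2 ∧ c2 < 1 / 4 ∧ ∃ N0 : ℕ, ∀ N k : ℕ, N0 ≤ N → c * N ≤ k → (k : ℝ) ≤ (1 - c) * N →
  P {ω | ¬ ∃ (w : ℕ) (as : ℝ),
      GEnv N k (rE (EE X ω)) (lE (EE X ω)) w m0 η0 as γ Cs C1 c1 e0 ∧
      ((N : ℝ) ^ (3 * γ) * as ≤ (N : ℝ) ^ (1 / 2 : ℝ) ∨
        ∃ (A B : ℕ) (a : ℝ), c2 * N ≤ A ∧ A ≤ B ∧ B < A + w ∧ (B : ℝ) + 1 ≤ (1 - c2) * N ∧ 0 < a ∧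
          (a ≤ RR (rE (EE X ω)) (lE (EE X ω)) A B / rE (EE X ω) (B + 1) ∨
            a ≤ RR (rE (EE X ω)) (lE (EE X ω)) A B / rE (EE X ω) A) ∧
          (N : ℝ) ^ (3 * γ) * as ≤ (N : ℝ) ^ (1 / 2 : ℝ) * a ^ (1 / 4 : ℝ))} ≤ ENNReal.ofReal ηp

/-- weak stretches exist in the bulk unless the law is non-nestling -/
def ST_STR : Prop := ∀ (Ω : Type) [MeasurableSpace Ω] (P : Measure Ω) (X : ℕ → Ω → ℝ),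
  IIDE P X → (∀ t : ℝ, 0 < t → P {ω | X 0 ω < 1 / 2 + t} ≠ 0) → ∀ (ηp c2 : ℝ) (m' : ℕ), 0 < ηp →
  0 < c2 → c2 < 1 / 4 → 1 ≤ m' → ∃ N0 : ℕ, ∀ N : ℕ, N0 ≤ N →
  P {ω | ¬ ∃ A : ℕ, c2 * N ≤ A ∧ (A : ℝ) + m' ≤ (1 - c2) * N ∧
      ∀ x, A < x → x ≤ A + m' →
        rE (EE X ω) x ≤ 1 / 2 + 1 / m' ∧ 1 / 2 - 1 / m' ≤ lE (EE X ω) x} ≤ ENNReal.ofReal ηp

/-! ### Part F -/

/-- cutoff in probability, quantified version -/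
def CutGoal {Ω : Type} [MeasurableSpace Ω] (P : Measure Ω) (X : ℕ → Ω → ℝ) : Prop :=
  ∀ (c ε δ ηp : ℝ), 0 < c → 0 < ε → ε < 1 / 2 → 0 < δ → δ < 1 → 0 < ηp →
  ∃ N0 : ℕ, ∀ (N k : ℕ), N0 ≤ N → c * N ≤ k → (k : ℝ) ≤ (1 - c) * N →
  P {ω | ∃ π : Conf N k → ℝ, IsStatC (EE X ω) N k π ∧
    ¬ |tmix (EE X ω) N k π ε / tmix (EE X ω) N k π (1 - ε) - 1| ≤ 15 * δ} ≤ ENNReal.ofReal ηp

/-- nestling and marginal nestling laws -/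
def ST_MAINN : Prop := ∀ (Ω : Type) [MeasurableSpace Ω] (P : Measure Ω) (X : ℕ → Ω → ℝ) (s : ℝ),
  IIDE P X → 3 / 2 < s → Mom P X s < 1 → (∀ t : ℝ, 0 < t → P {ω | X 0 ω < 1 / 2 + t} ≠ 0) →
  CutGoal P X

/-- non-nestling laws -/
def ST_MAINNN : Prop := ∀ (Ω : Type) [MeasurableSpace Ω] (P : Measure Ω) (X : ℕ → Ω → ℝ) (t : ℝ),
  IIDE P X → 0 < t → P {ω | X 0 ω < 1 / 2 + t} = 0 → CutGoal P X

/-- the final theorem -/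
def ST_MAIN : Prop := ∀ (Ω : Type) [MeasurableSpace Ω] (P : Measure Ω) (X : ℕ → Ω → ℝ) (s : ℝ)
  (k : ℕ → ℕ), IIDE P X → 3 / 2 < s → Mom P X s < 1 → (∀ N, k N ≤ N) →
  0 < liminf (fun N => (k N : ℝ) / N) atTop → limsup (fun N => (k N : ℝ) / N) atTop < 1 →
  (∀ N, 1 ≤ N → ∀ ω, ∃! π : Conf N (k N) → ℝ, IsStatC (EE X ω) N (k N) π) ∧
  ∀ π : (N : ℕ) → Ω → Conf N (k N) → ℝ, (∀ N, 1 ≤ N → ∀ ω, IsStatC (EE X ω) N (k N) (π N ω)) →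
  ∀ ε δ : ℝ, 0 < ε → ε < 1 / 2 → 0 < δ →
  Tendsto (fun N => P {ω | δ < |tmix (EE X ω) N (k N) (π N ω) ε /
    tmix (EE X ω) N (k N) (π N ω) (1 - ε) - 1|}) atTop (𝓝 0)

end Pool.Agent.Helper98.EX
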