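import Pool.Agent.Helper68.EX.ATCMP
import Pool.Agent.Helper75.EX.CELL
import Pool.Agent.Helper30.EX.CENS
import Pool.Agent.Helper8.EX.COAL
import Pool.Agent.Helper58.EX.CONC
import Pool.Agent.Helper45.EX.CUT
import Pool.Agent.Helper91.EX.DT1
import Pool.Agent.Helper58.EX.DT2
import Pool.Agent.Helper52.EX.ENV
import Pool.Agent.Helper26.EX.EPOCH
import Pool.Agent.Helper63.EX.EVFAR
import Pool.Agent.Helper21.EX.EVMAX
import Pool.Agent.Helper91.EX.EVNEAR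
import Pool.Agent.Helper35.EX.EVSUM
import Pool.Agent.Helper95.EX.EXCH
import Pool.Agent.Helper41.EX.FIN
import Pool.Agent.Helper52.EX.GAIN
import Pool.Agent.Helper53.EX.GS
import Pool.Agent.Helper11.EX.HITGEO
import Pool.Agent.Helper97.EX.HT
import Pool.Agent.Helper97.EX.JEN
import Pool.Agent.Helper59.EX.LAGL
import Pool.Agent.Helper45.EX.LAGLOW
import Pool.Agent.Helper59.EX.LEAD
import Pool.Agent.Helper85.EX.LOC
import Pool.Agent.Helper68.EX.LOCHIT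
import Pool.Agent.Helper48.EX.LOW
import Pool.Agent.Helper11.EX.MAIN
import Pool.Agent.Helper97.EX.MAINN
import Pool.Agent.Helper85.EX.MAINNN
import Pool.Agent.Helper34.EX.MIR
import Pool.Agent.Helper37.EX.MOM
import Pool.Agent.Helper97.EX.MOVE
import Pool.Agent.Helper52.EX.NH0
import Pool.Agent.Helper30.EX.NNG
import Pool.Agent.Helper17.EX.PHASE
import Pool.Agent.Helper28.EX.POI
import Pool.Agent.Helper78.EX.POITAIL
import Pool.Agent.Helper27.EX.Q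
import Pool.Agent.Helper38.EX.QHIT
import Pool.Agent.Helper35.EX.QPOIN
import Pool.Agent.Helper8.EX.RATE
import Pool.Agent.Helper91.EX.SL
import Pool.Agent.Helper11.EX.SLA
import Pool.Agent.Helper55.EX.STATEX
import Pool.Agent.Helper34.EX.STATTAIL
import Pool.Agent.Helper45.EX.STC
import Pool.Agent.Helper21.EX.STR
import Pool.Agent.Helper89.EX.STREAM
import Pool.Agent.Helper45.EX.STRETCH
import Pool.Agent.Helper48.EX.STRLOW
import Pool.Agent.Helper55.EX.TIME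
import Pool.Agent.Helper91.EX.TOPTAIL
import Pool.Agent.Helper38.EX.TRAPLOW
import Pool.Agent.Helper28.EX.TVLOW
import Pool.Agent.Helper78.EX.TVUP
import Pool.Agent.Helper50.EX.WALK
import Pool.Agent.Helper63.EX.WALKH
import Pool.Agent.Helper45.EX.WALL
import Pool.Agent.Helper63.EX.WCOND

namespace Pool.Agent.Helper98.EX

theorem a_ATCMP : ST_ATCMP := st_ATCMP
theorem a_CELL : ST_CELL := st_CELL
theorem a_CENS : ST_CENS := st_CENS
theorem a_COAL : ST_COAL := st_COAL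
theorem a_CONC : ST_CONC := st_CONC
theorem a_EPOCH : ST_EPOCH := st_EPOCH
theorem a_GAIN : ST_GAIN := st_GAIN
theorem a_GS : ST_GS := st_GS
theorem a_JEN : ST_JEN := st_JEN
theorem a_LEAD : ST_LEAD := st_LEAD
theorem a_LOC : ST_LOC := st_LOC
theorem a_LOCHIT : ST_LOCHIT := st_LOCHIT
theorem a_MIR : ST_MIR := st_MIR
theorem a_MOM : ST_MOM := st_MOM
theorem a_NNG : ST_NNG := st_NNG
theorem a_POI : ST_POI := st_POI
theorem a_POITAIL : ST_POITAIL := st_POITAIL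
theorem a_QPOIN : ST_QPOIN := st_QPOIN
theorem a_RATE : ST_RATE := st_RATE
theorem a_SLA : ST_SLA := st_SLA
theorem a_STR : ST_STR := st_STR
theorem a_STRETCH : ST_STRETCH := st_STRETCH
theorem a_TIME : ST_TIME := st_TIME
theorem a_WALK : ST_WALK := st_WALK
theorem a_WALL : ST_WALL := st_WALL
theorem a_WCOND : ST_WCOND := st_WCOND
theorem a_EVFAR : ST_EVFAR := st_EVFAR a_MOM
theorem a_EVMAX : ST_EVMAX := st_EVMAX a_MOM
theorem a_EVNEAR : ST_EVNEAR := st_EVNEAR a_MOM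
theorem a_EVSUM : ST_EVSUM := st_EVSUM a_MOM
theorem a_EXCH : ST_EXCH := st_EXCH a_MOM
theorem a_ENV : ST_ENV := st_ENV a_JEN a_EVFAR a_EVSUM a_EVNEAR a_EVMAX a_EXCH
theorem a_HITGEO : ST_HITGEO := st_HITGEO a_TIME
theorem a_HT : ST_HT := st_HT a_CONC
theorem a_LAGLOW : ST_LAGLOW := st_LAGLOW a_CONC a_LEAD
theorem a_LOW : ST_LOW := st_LOW a_GAIN
theorem a_MOVE : ST_MOVE := st_MOVE a_WALK a_WCOND
theorem a_NH0 : ST_NH0 := st_NH0 a_LOCHIT
theorem a_PHASE (h : ST_STREAM) : ST_PHASE := st_PHASE h a_LOC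
theorem a_QHIT : ST_QHIT := st_QHIT a_QPOIN
theorem a_TOPTAIL : ST_TOPTAIL := st_TOPTAIL a_LOC
theorem a_Q : ST_Q := st_Q a_QHIT a_TOPTAIL a_LOC
theorem a_SL : ST_SL := st_SL a_SLA a_LOC a_MIR
theorem a_STATEX : ST_STATEX := st_STATEX a_COAL
theorem a_STATTAIL : ST_STATTAIL := st_STATTAIL a_RATE a_COAL a_TOPTAIL a_LOCHIT
theorem a_STC : ST_STC := st_STC a_STATEX
theorem a_STREAM : ST_STREAM := st_STREAM a_SL a_MOVE a_Q a_CELL a_MIR
theorem a_PHASE' : ST_PHASE := a_PHASE a_STREAM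
theorem a_STRLOW : ST_STRLOW := st_STRLOW a_STRETCH a_GAIN
theorem a_TRAPLOW : ST_TRAPLOW := st_TRAPLOW a_EPOCH a_GAIN
theorem a_TVLOW : ST_TVLOW := st_TVLOW a_POI
theorem a_TVUP : ST_TVUP := st_TVUP a_POI a_POITAIL a_COAL a_STC
theorem a_CUT : ST_CUT := st_CUT a_TVUP a_TVLOW a_POITAIL a_TIME a_NH0 a_STC
theorem a_FIN : ST_FIN := st_FIN a_STREAM a_Q a_CENS a_RATE a_LOC a_HITGEO a_LOCHIT
theorem a_DT1 : ST_DT1 := st_DT1 a_FIN a_GS a_HT
theorem a_LAGL : ST_LAGL :=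
  st_LAGL a_CONC a_TIME a_CENS a_RATE a_WALL a_LAGLOW a_PHASE' a_ATCMP a_NNG
theorem a_DT2 : ST_DT2 := st_DT2 a_LAGL a_HT a_FIN a_NNG a_ATCMP a_LOW a_MIR
theorem a_MAINN : ST_MAINN :=
  st_MAINN a_ENV a_STR a_DT1 a_GS a_TRAPLOW a_STRLOW a_LOW a_STATTAIL a_STC a_CUT
theorem a_MAINNN : ST_MAINNN := st_MAINNN a_NNG a_DT1 a_DT2 a_LOW a_STATTAIL a_STC a_CUT
theorem a_MAIN : ST_MAIN := st_MAIN a_MAINN a_MAINNN a_STC

end Pool.Agent.Helper98.EX
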