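import Mathlib

/-!
# Exclusion process on a segment with bond rates (definitions)

Sites `0..N-1`.  Bond `x` (`1 ≤ x < N`) joins the sites `x-1` and `x`.  A particle at `x-1` jumps
right over bond `x` at rate `r x`, a particle at `x` jumps left over bond `x` at rate `l x`.
`stp r l S f` is one step of the discrete skeleton (clock rate `2N`) with open bonds `S`.
-/

namespace Pool.Agent.Helper98.EX

open Finset

/-- Configurations on `N` sites. -/
abbrev Cfg (N : ℕ) := Fin N → Bool

/-- occupation of the natural number site `i` (`false` outside). -/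
def occ {N : ℕ} (η : Cfg N) (i : ℕ) : Bool := if h : i < N then η ⟨i, h⟩ else false

/-- height: number of particles at sites `≥ x`. -/
def ht {N : ℕ} (η : Cfg N) (x : ℕ) : ℕ := ∑ i ∈ Finset.Ico x N, (if occ η i = true then 1 else 0)

/-- exchange the values at the sites `x-1` and `x`. -/
def swp {N : ℕ} (x : ℕ) (η : Cfg N) : Cfg N :=
  fun i => if i.val = x then occ η (x - 1) else if i.val + 1 = x then occ η x else η i

/-- right mark at bond `x`: a particle at `x-1` jumps to `x` if `x` is empty. -/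
def Rm {N : ℕ} (x : ℕ) (η : Cfg N) : Cfg N :=
  if 1 ≤ x ∧ x < N ∧ occ η (x - 1) = true ∧ occ η x = false then swp x η else η

/-- left mark at bond `x`: a particle at `x` jumps to `x-1` if `x-1` is empty. -/
def Lm {N : ℕ} (x : ℕ) (η : Cfg N) : Cfg N :=
  if 1 ≤ x ∧ x < N ∧ occ η (x - 1) = false ∧ occ η x = true then swp x η else η

/-- marks at closed bonds are ignored -/
def RmS {N : ℕ} (S : Finset ℕ) (x : ℕ) (η : Cfg N) : Cfg N := if x ∈ S then Rm x η else η

/-- marks at closed bonds are ignored -/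
def LmS {N : ℕ} (S : Finset ℕ) (x : ℕ) (η : Cfg N) : Cfg N := if x ∈ S then Lm x η else η

/-- all bonds -/
def full (N : ℕ) : Finset ℕ := Finset.Ico 1 N

/-- one step of the discrete skeleton with open bonds `S`, acting on functions. -/
noncomputable def stp {N : ℕ} (r l : ℕ → ℝ) (S : Finset ℕ) (f : Cfg N → ℝ) (η : Cfg N) : ℝ :=
  f η + (∑ x ∈ full N, (r x * (f (RmS S x η) - f η) + l x * (f (LmS S x η) - f η))) / (2 * N)

/-- `m` steps with the schedule `σ` (first step `σ 0`, outermost). -/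
noncomputable def ev {N : ℕ} (r l : ℕ → ℝ) : (ℕ → Finset ℕ) → ℕ → (Cfg N → ℝ) → (Cfg N → ℝ)
  | _, 0, f => f
  | σ, m + 1, f => stp r l (σ 0) (ev r l (fun i => σ (i + 1)) m f)

open Classical in
/-- indicator -/
noncomputable def ind {N : ℕ} (A : Set (Cfg N)) (η : Cfg N) : ℝ := if η ∈ A then 1 else 0

/-- probability of the event `A` after `m` steps of the schedule `σ` started from `η` -/
noncomputable def pr {N : ℕ} (r l : ℕ → ℝ) (σ : ℕ → Finset ℕ) (m : ℕ) (A : Set (Cfg N))
    (η : Cfg N) : ℝ := ev r l σ m (ind A) η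

/-- height order with shift `c` -/
def hle {N : ℕ} (c : ℕ) (η ξ : Cfg N) : Prop := ∀ x, ht η x ≤ ht ξ x + c

/-- increasing on the sector with `k` particles -/
def Inc {N : ℕ} (k : ℕ) (f : Cfg N → ℝ) : Prop :=
  ∀ η ξ : Cfg N, ht η 0 = k → ht ξ 0 = k → hle 0 η ξ → f η ≤ f ξ

/-- lowest configuration -/
def bot (N k : ℕ) : Cfg N := fun i => decide (i.val < k)

/-- highest configuration -/
def top (N k : ℕ) : Cfg N := fun i => decide (N ≤ i.val + k)

/-- `n` misplaced particles at the left end of the window `[A,B)`, `n` misplaced holes at its right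
end, otherwise sorted around the interface `x0` (also outside the window). -/
def zet (N A B x0 n : ℕ) : Cfg N :=
  fun i => decide ((A ≤ i.val ∧ i.val < A + n) ∨ (x0 ≤ i.val ∧ i.val + n < B) ∨
    (x0 ≤ i.val ∧ B ≤ i.val))

/-- sorted outside `[q1,q2)` inside the window `[A,B)`: no particles in `[A,q1)`, no holes in
`[q2,B)`. -/
def sorted {N : ℕ} (A q1 q2 B : ℕ) : Set (Cfg N) :=
  {η | (∀ i, A ≤ i → i < q1 → occ η i = false) ∧ (∀ i, q2 ≤ i → i < B → occ η i = true)}

/-- resistance ratio `R(z,x) = ∏_{b ∈ (z,x]} l_b / r_b` -/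
noncomputable def RR (r l : ℕ → ℝ) (z x : ℕ) : ℝ := ∏ b ∈ Finset.Ioc z x, l b / r b

/-- admissible rates on `N` sites -/
def Adm (N : ℕ) (r l : ℕ → ℝ) : Prop :=
  ∀ x, 1 ≤ x → x < N → 0 < r x ∧ r x ≤ 1 ∧ 0 ≤ l x ∧ l x ≤ 1

/-- number of particles in `[A,B)` -/
def cnt {N : ℕ} (η : Cfg N) (A B : ℕ) : ℕ := ∑ i ∈ Finset.Ico A B, (if occ η i = true then 1 else 0)

/-- concatenation of schedules at time `m` -/
def cat (m : ℕ) (σ σ' : ℕ → Finset ℕ) : ℕ → Finset ℕ := fun i => if i < m then σ i else σ' (i - m)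

end Pool.Agent.Helper98.EX
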