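import Pool.Agent.Helper98.EX.Stmts

/-!
# Streaming schedules: definitions and statements (part B)

Left half: `n` misplaced particles start at `p i = A + n - i` (`i = 1..n`) in a window `[A,..)` with
interface `x0`.  Cells `1..M` are `[u (c-1), u c)`, `u 0 = A`, `u M = x0 - 3w`, the cell `M+1` is
`[x0-3w, x0-w)`.  Time is counted in slots.  `cc i t = t - (3 i + s)` is the cell index prescribed for
particle `i` at time `t`; as long as `cc i t ≤ b i` (initial cell) the particle is frozen at `p i`.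
Pair `i` is absorbed in the slot `ab i = 3 i + s + M + 1`.
-/

namespace Pool.Agent.Helper98.EX

open Finset

/-- data of the left half of a streaming schedule -/
structure LD where
  A : ℕ
  x0 : ℕ
  w : ℕ
  n : ℕ
  M : ℕ
  s : ℕ
  u : ℕ → ℕ

namespace LD

/-- initial position of particle `i` (`1 ≤ i ≤ n`) -/
def p (L : LD) (i : ℕ) : ℕ := L.A + L.n - i

/-- right end of cell `c` -/
def e (L : LD) (c : ℕ) : ℕ := if c ≤ L.M then L.u c else L.x0 - L.w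

/-- initial cell of particle `i`; it is `M + 1` iff `p i ≥ x0 - 3w` -/
def b (L : LD) (i : ℕ) : ℕ := 1 + ((Finset.Icc 1 L.M).filter (fun c => L.u c ≤ L.p i)).card

/-- prescribed cell -/
def cc (L : LD) (i t : ℕ) : ℕ := t - (3 * i + L.s)

/-- absorption slot of pair `i` -/
def ab (L : LD) (i : ℕ) : ℕ := 3 * i + L.s + L.M + 1

/-- particle `i` is in the interval `[lo i t, hi i t)` at time `t` -/
def lo (L : LD) (i t : ℕ) : ℕ := if L.cc i t ≤ L.b i then L.p i else L.e (L.cc i t - 1)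

/-- see `lo` -/
def hi (L : LD) (i t : ℕ) : ℕ := if L.cc i t ≤ L.b i then L.p i + 1 else L.e (L.cc i t)

/-- particle `i` moves from its cell to the next one during slot `t` -/
def act (L : LD) (i t : ℕ) : Prop := 1 ≤ i ∧ i ≤ L.n ∧ L.b i ≤ L.cc i t ∧ L.cc i t ≤ L.M

instance (L : LD) (i t : ℕ) : Decidable (L.act i t) := by unfold act; infer_instance

/-- left end of the window of an active particle; the right end is `e (cc i t + 1)` -/
def lw (L : LD) (i t : ℕ) : ℕ := if L.cc i t ≤ L.b i then L.p i else L.e (L.cc i t - 1)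

/-- windows of the left half in slot `t` -/
def Wn (L : LD) (t : ℕ) : Finset (ℕ × ℕ) :=
  ((Finset.Icc 1 L.n).filter (fun i => L.act i t)).image (fun i => (L.lw i t, L.e (L.cc i t + 1)))

/-- left end of the absorption window of pair `j` -/
def ql (L : LD) (j : ℕ) : ℕ := if L.b j = L.M + 1 then L.p j else L.x0 - 3 * L.w

/-- number of pairs absorbed before time `t` -/
def na (L : LD) (t : ℕ) : ℕ := ((Finset.Icc 1 L.n).filter (fun i => L.ab i < t)).card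

/-- left end of the disordered zone after `j` absorptions -/
def dl (L : LD) (j : ℕ) : ℕ := if j = 0 then L.x0 else max (L.ql j) (L.x0 - L.w)

/-- validity of the data -/
structure Valid (L : LD) : Prop where
  w1 : 1 ≤ L.w
  u0 : L.u 0 = L.A
  uM : L.u L.M + 3 * L.w = L.x0
  first : 1 ≤ L.M → L.u 0 < L.u 1
  step : ∀ c, 1 ≤ c → c < L.M → L.u c + L.w + 1 ≤ L.u (c + 1)
  n1 : L.A + L.n ≤ L.x0

/-- the pattern of the left half at time `t` -/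
def Pat {N : ℕ} (L : LD) (t : ℕ) : Set (Cfg N) :=
  {η | (∀ i, 1 ≤ i → i ≤ L.n → t ≤ L.ab i → cnt η (L.lo i t) (L.hi i t) = 1) ∧
    (∀ x, L.A ≤ x → x < L.dl (L.na t) →
      (∀ i, 1 ≤ i → i ≤ L.n → t ≤ L.ab i → ¬ (L.lo i t ≤ x ∧ x < L.hi i t)) → occ η x = false)}

end LD

/-- initial state of the window `[A,B)`: `n` misplaced particles at the left end, `n` misplaced holes
at the right end -/
def startw {N : ℕ} (A B x0 n : ℕ) (η : Cfg N) : Prop :=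
  ∀ i, A ≤ i → i < B → (occ η i = true ↔ (i < A + n ∨ (x0 ≤ i ∧ i + n < B)))

/-- SLA: deterministic facts on the left half. -/
def ST_SLA : Prop := ∀ (N : ℕ) (L : LD), L.Valid → L.x0 ≤ N →
  -- geometry of the windows
  (∀ t i, L.act i t → L.A ≤ L.lw i t ∧ L.lw i t < L.e (L.cc i t) ∧
    L.e (L.cc i t) + L.w < L.e (L.cc i t + 1) ∧ L.e (L.cc i t + 1) ≤ L.x0 - L.w ∧
    1 ≤ L.cc i t ∧ L.e (L.cc i t - 1) ≤ L.lw i t) ∧
  (∀ t i i', L.act i t → L.act i' t → i < i' → L.e (L.cc i' t + 1) ≤ L.lw i t) ∧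
  (∀ t i j, 1 ≤ j → j ≤ L.n → t = L.ab j → L.act i t → L.e (L.cc i t + 1) ≤ L.ql j) ∧
  (∀ j, 1 ≤ j → j ≤ L.n → L.x0 - 3 * L.w ≤ L.ql j ∧ L.ql j < L.x0 ∧ L.A ≤ L.ql j) ∧
  -- content of the windows
  (∀ t i (η : Cfg N), L.act i t → η ∈ (L.Pat t : Set (Cfg N)) →
    cnt η (L.lw i t) (L.e (L.cc i t + 1)) = 1 ∧
    ∃ x, L.lw i t ≤ x ∧ x < L.e (L.cc i t) ∧ occ η x = true) ∧
  -- content of the absorption window, left of the disordered zone: exactly one particle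
  (∀ j (η : Cfg N), 1 ≤ j → j ≤ L.n → η ∈ (L.Pat (L.ab j) : Set (Cfg N)) →
    L.ql j ≤ L.dl (j - 1) ∧ L.na (L.ab j) = j - 1 ∧ cnt η (L.ql j) (L.dl (j - 1)) = 1) ∧
  -- next pattern
  (∀ t (η ξ : Cfg N), η ∈ (L.Pat t : Set (Cfg N)) →
    (∀ i, L.act i t → cnt ξ (L.lw i t) (L.e (L.cc i t + 1)) = 1 ∧
      ∀ x, L.lw i t ≤ x → x < L.e (L.cc i t) → occ ξ x = false) →
    (∀ x, L.A ≤ x → x < L.x0 → (∀ i, L.act i t → ¬ (L.lw i t ≤ x ∧ x < L.e (L.cc i t + 1))) →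
      (∀ j, 1 ≤ j → j ≤ L.n → t = L.ab j → x < L.ql j) → occ ξ x = occ η x) →
    (∀ j, 1 ≤ j → j ≤ L.n → t = L.ab j → ∀ x, L.ql j ≤ x → x < L.x0 - L.w → occ ξ x = false) →
    ξ ∈ (L.Pat (t + 1) : Set (Cfg N))) ∧
  -- initial and final patterns
  (∀ η : Cfg N, (∀ x, L.A ≤ x → x < L.x0 → (occ η x = true ↔ x < L.A + L.n)) →
    η ∈ (L.Pat 0 : Set (Cfg N))) ∧
  (∀ η : Cfg N, 1 ≤ L.n → η ∈ (L.Pat (L.ab L.n + 1) : Set (Cfg N)) →
    ∀ x, L.A ≤ x → x < L.x0 - L.w → occ η x = false) ∧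
  -- monotonicity of the zones
  (∀ j, 1 ≤ j → j ≤ L.n → L.dl j ≤ L.dl (j - 1) ∧ L.ql j ≤ L.dl j)

/-- SL: the streaming lemma. `L` left half, `L'` right half in mirrored coordinates. -/
def ST_SL : Prop := ∀ (N : ℕ) (r l : ℕ → ℝ) (A B x0 w n τ : ℕ) (e1 e2 : ℝ) (L L' : LD),
  Adm N r l → Pos N l → A ≤ x0 → x0 ≤ B → B ≤ N → 1 ≤ n → 0 ≤ e1 → 0 ≤ e2 →
  L.Valid → L'.Valid → L.A = A → L.x0 = x0 → L.w = w → L.n = n →
  L'.A = N - B → L'.x0 = N - x0 → L'.w = w → L'.n = n → L.M + L.s = L'.M + L'.s →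
  -- single particle moves
  (∀ (c a : ℕ) (S : Finset ℕ) (η : Cfg N), 1 ≤ c → c ≤ L.M → L.e (c - 1) ≤ a → a < L.e c →
    a ∉ S → L.e (c + 1) ∉ S → (∀ x, a < x → x < L.e (c + 1) → x ∈ S) →
    cnt η a (L.e (c + 1)) = 1 → (∃ x, a ≤ x ∧ x < L.e c ∧ occ η x = true) →
    pr r l (fun _ => S) τ {ξ | ∃ i, a ≤ i ∧ i < L.e c ∧ occ ξ i = true} η ≤ e1) →
  -- single hole moves, in mirrored form
  (∀ (c a : ℕ) (S : Finset ℕ) (η : Cfg N), 1 ≤ c → c ≤ L'.M → L'.e (c - 1) ≤ a → a < L'.e c →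
    a ∉ S → L'.e (c + 1) ∉ S → (∀ x, a < x → x < L'.e (c + 1) → x ∈ S) →
    cnt η a (L'.e (c + 1)) = 1 → (∃ x, a ≤ x ∧ x < L'.e c ∧ occ η x = true) →
    pr (mirr N r) (mirr N l) (fun _ => S) τ {ξ | ∃ i, a ≤ i ∧ i < L'.e c ∧ occ ξ i = true} η ≤ e1) →
  -- absorption steps
  (∀ (l0 r0 : ℕ) (S : Finset ℕ) (η : Cfg N), x0 - 3 * w ≤ l0 → l0 < x0 → x0 < r0 →
    r0 ≤ x0 + 3 * w → A ≤ l0 → r0 ≤ B →
    l0 ∉ S → r0 ∉ S → (∀ x, l0 < x → x < r0 → x ∈ S) → cnt η l0 r0 = r0 - x0 →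
    pr r l (fun _ => S) τ (sorted l0 (x0 - w) (x0 + w) r0)ᶜ η ≤ e2) →
  ∃ σ : ℕ → Finset ℕ, (∀ i, σ i ⊆ Finset.Ioo A B) ∧
    ∀ η : Cfg N, startw A B x0 n η →
      pr r l σ (τ * (3 * n + (L.M + L.s) + 2)) (sorted A (x0 - w) (x0 + w) B)ᶜ η ≤
        ((3 * n + (L.M + L.s) + 2 : ℕ) : ℝ) * (2 * n * e1 + e2)

end Pool.Agent.Helper98.EX
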