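import Pool.Agent.Helper98.EX.Basic

/-!
# Statements of the modules, part A (tools)
Every module X proves `theorem st_X (inputs : ST_Y) : ST_X`.
-/

namespace Pool.Agent.Helper98.EX

open Finset

/-- left rates positive on the bonds -/
def Pos (N : ℕ) (l : ℕ → ℝ) : Prop := ∀ x, 1 ≤ x → x < N → 0 < l x

/-- probability (from `η`, open bonds `S`) that the set `T` is not hit at the times `0..m` -/
noncomputable def nohit {N : ℕ} (r l : ℕ → ℝ) (S : Finset ℕ) (T : Set (Cfg N)) : ℕ → Cfg N → ℝ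
  | 0, η => 1 - ind T η
  | m + 1, η => (1 - ind T η) * stp r l S (nohit r l S T m) η

/-- mirror image: reflect the segment and exchange particles and holes -/
def mir {N : ℕ} (η : Cfg N) : Cfg N := fun i => !(occ η (N - 1 - i.val))

/-- mirrored bond set -/
def mirS (N : ℕ) (S : Finset ℕ) : Finset ℕ := (S ∩ full N).image (fun x => N - x)

/-- mirrored rates -/
def mirr (N : ℕ) (r : ℕ → ℝ) : ℕ → ℝ := fun x => r (N - x)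

/-- stationary law of the full dynamics with `k` particles -/
structure IsStat (N k : ℕ) (r l : ℕ → ℝ) (π : Cfg N → ℝ) : Prop where
  nonneg : ∀ η, 0 ≤ π η
  supp : ∀ η, ht η 0 ≠ k → π η = 0
  total : ∑ η, π η = 1
  stat : ∀ f : Cfg N → ℝ, ∑ η, π η * stp r l (full N) f η = ∑ η, π η * f η

/-! ### general comparison tools -/

/-- censoring inequality (Peres-Winkler) -/
def ST_CENS : Prop := ∀ (N k : ℕ) (r l : ℕ → ℝ) (σ σ' : ℕ → Finset ℕ) (m : ℕ) (f : Cfg N → ℝ),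
  k ≤ N → Adm N r l → (∀ i, σ' i ⊆ σ i) → Inc k f →
  ev r l σ' m f (bot N k) ≤ ev r l σ m f (bot N k)

/-- monotonicity in the left rates -/
def ST_RATE : Prop := ∀ (N k : ℕ) (r l l' : ℕ → ℝ) (σ : ℕ → Finset ℕ) (m : ℕ) (f : Cfg N → ℝ)
  (η : Cfg N), Adm N r l → Adm N r l' → (∀ x, 1 ≤ x → x < N → l x ≤ l' x) → Inc k f →
  ht η 0 = k → ev r l' σ m f η ≤ ev r l σ m f η

/-- monotonicity in time from the lowest state -/
def ST_TIME : Prop := ∀ (N k : ℕ) (r l : ℕ → ℝ) (m n : ℕ) (f : Cfg N → ℝ),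
  k ≤ N → Adm N r l → Inc k f → m ≤ n →
  ev r l (fun _ => full N) m f (bot N k) ≤ ev r l (fun _ => full N) n f (bot N k)

/-- concentration of heights -/
def ST_CONC : Prop := ∃ C0 : ℝ, 0 < C0 ∧ ∀ (N : ℕ) (r l : ℕ → ℝ) (σ : ℕ → Finset ℕ) (m x : ℕ)
  (a : ℝ) (η : Cfg N), 3 ≤ N → Adm N r l → 0 ≤ a →
  a ≤ ((m : ℝ) / (2 * N) + 1) * Real.log N →
  pr r l σ m {ξ | a ≤ |(ht ξ x : ℝ) - ev r l σ m (fun ζ => (ht ζ x : ℝ)) η|} η ≤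
    2 * Real.exp (-(a ^ 2 / (C0 * ((m : ℝ) / (2 * N) + 1) * Real.log N ^ 2)))

/-- locality: frozen sites, conserved counts, local functions -/
def ST_LOC : Prop :=
  (∀ (N : ℕ) (r l : ℕ → ℝ) (σ : ℕ → Finset ℕ) (m x : ℕ) (η : Cfg N),
    (∀ i, x ∉ σ i ∧ x + 1 ∉ σ i) → pr r l σ m {ξ | occ ξ x ≠ occ η x} η = 0) ∧
  (∀ (N : ℕ) (r l : ℕ → ℝ) (σ : ℕ → Finset ℕ) (m A B : ℕ) (η : Cfg N), A ≤ B → B ≤ N →
    (∀ i, A ∉ σ i ∧ B ∉ σ i) → pr r l σ m {ξ | cnt ξ A B ≠ cnt η A B} η = 0) ∧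
  (∀ (N : ℕ) (r l : ℕ → ℝ) (σ : ℕ → Finset ℕ) (m A B : ℕ) (f : Cfg N → ℝ) (η : Cfg N),
    (∀ i, A ∉ σ i ∧ B ∉ σ i) →
    (∀ η ξ : Cfg N, (∀ x, A ≤ x → x < B → occ η x = occ ξ x) → f η = f ξ) →
    ev r l σ m f η = ev r l (fun i => σ i ∩ Finset.Ioo A B) m f η)

/-- mirror symmetry -/
def ST_MIR : Prop := ∀ (N : ℕ),
  (∀ η : Cfg N, mir (mir η) = η) ∧
  (∀ (η : Cfg N) (x : ℕ), x < N → occ (mir η) x = !(occ η (N - 1 - x))) ∧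
  (∀ (η : Cfg N) (x : ℕ), x ≤ N → ht (mir η) x + ht η 0 = (N - x) + ht η (N - x)) ∧
  (∀ (r l : ℕ → ℝ) (σ : ℕ → Finset ℕ) (m : ℕ) (f : Cfg N → ℝ) (η : Cfg N),
    ev r l σ m f η = ev (mirr N r) (mirr N l) (fun i => mirS N (σ i)) m (fun ζ => f (mir ζ)) (mir η))

/-! ### one particle in a closed window -/

/-- single particle in the closed window `[A,B)`: it is beyond `u` with high probability -/
def ST_WALK : Prop := ∀ (N : ℕ) (r l v : ℕ → ℝ) (lam : ℝ) (S : Finset ℕ) (A B u u' c m : ℕ)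
  (η : Cfg N), Adm N r l → Pos N l → A ≤ c → c ≤ u' → u ≤ u' → u' < B → B ≤ N →
  A ∉ S → B ∉ S → (∀ x, A < x → x < B → x ∈ S) → cnt η A B = 1 → occ η c = true →
  (∀ y, 0 ≤ v y) → 0 ≤ lam →
  (∀ y, A ≤ y → y < u' →
    (1 + v y) * (lam + (if y = A then 0 else l y * v (y - 1))) ≤ r (y + 1) * v y) →
  pr r l (fun _ => S) m {ξ | ∃ i, A ≤ i ∧ i < u ∧ occ ξ i = true} η ≤
    Real.exp (∑ y ∈ Finset.Ico c u', v y - lam * m / (2 * N)) +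
      ∑ z ∈ Finset.Ico A u, RR r l z u'

/-- single hole in the closed window `[A,B)`: it is at most `u` with high probability -/
def ST_WALKH : Prop := ∀ (N : ℕ) (r l v : ℕ → ℝ) (lam : ℝ) (S : Finset ℕ) (A B u u' c m : ℕ)
  (η : Cfg N), Adm N r l → Pos N l → c < B → u' ≤ c → u' ≤ u → A ≤ u' → B ≤ N →
  A ∉ S → B ∉ S → (∀ x, A < x → x < B → x ∈ S) → cnt η A B + 1 = B - A → occ η c = false →
  (∀ y, 0 ≤ v y) → 0 ≤ lam →
  (∀ y, u' < y → y < B →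
    (1 + v y) * (lam + (if y + 1 = B then 0 else l (y + 1) * v (y + 1))) ≤ r y * v y) →
  pr r l (fun _ => S) m {ξ | ∃ i, u < i ∧ i < B ∧ occ ξ i = false} η ≤
    Real.exp (∑ y ∈ Finset.Ioc u' c, v y - lam * m / (2 * N)) +
      ∑ z ∈ Finset.Ioo u B, RR r l u' z

/-! ### many particles in a small closed window -/

/-- from a window-sorted state the equilibrium tail bounds hold at all times, for every schedule -/
def ST_TOPTAIL : Prop := ∀ (N : ℕ) (r l : ℕ → ℝ) (σ : ℕ → Finset ℕ) (j A q1 x0 q2 B : ℕ)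
  (η : Cfg N), Adm N r l → Pos N l → A ≤ q1 → q1 ≤ x0 → x0 ≤ q2 → q2 ≤ B → B ≤ N →
  (∀ i, A ∉ σ i ∧ B ∉ σ i) → η ∈ (sorted A x0 x0 B : Set (Cfg N)) →
  pr r l σ j (sorted A q1 q2 B)ᶜ η ≤
    ∑ z ∈ Finset.Ico A q1, ∑ x ∈ Finset.Ico x0 B, RR r l z x +
    ∑ z ∈ Finset.Ico A x0, ∑ x ∈ Finset.Ico q2 B, RR r l z x

/-- weight of the window part of a configuration relative to the sorted one -/
noncomputable def pw {N : ℕ} (r l : ℕ → ℝ) (A x0 B : ℕ) (η : Cfg N) : ℝ :=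
  (∏ i ∈ Finset.Ico A x0, (if occ η i = true then RR r l i x0 else 1)) *
  (∏ i ∈ Finset.Ico x0 B, (if occ η i = true then 1 else RR r l x0 i))

/-- configurations agreeing with `η0` outside the window `[A,B)`, balanced in the window -/
def XW {N : ℕ} (A x0 B : ℕ) (η0 : Cfg N) : Finset (Cfg N) :=
  Finset.univ.filter (fun η => cnt η A B = B - x0 ∧
    ∀ i ∈ Finset.range N, (i < A ∨ B ≤ i) → occ η i = occ η0 i)

/-- Poincare inequality for functions vanishing at the sorted state of the window -/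
def ST_QPOIN : Prop := ∀ (N : ℕ) (r l : ℕ → ℝ) (A x0 B : ℕ) (D rmin Zs : ℝ) (η0 : Cfg N)
  (f : Cfg N → ℝ),
  Adm N r l → Pos N l → A ≤ x0 → x0 ≤ B → A < B → B ≤ N → 0 < rmin →
  (∀ b, A < b → b < B → rmin ≤ r b) → 1 ≤ D →
  (∀ z x, A ≤ z → z ≤ x → x < B → RR r l z x ≤ D) →
  ∑ z ∈ Finset.Ico A x0, RR r l z x0 + ∑ x ∈ Finset.Ico x0 B, RR r l x0 x ≤ Zs →
  (∀ η ∈ (sorted A x0 x0 B : Set (Cfg N)), f η = 0) →
  ∑ η ∈ XW A x0 B η0, pw r l A x0 B η * f η ^ 2 ≤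
    (8 * ((B : ℝ) - A) ^ 4 * D ^ 2 * Real.exp Zs * (2 * N) / rmin) *
    ∑ η ∈ XW A x0 B η0, ∑ b ∈ Finset.Ioo A B,
      pw r l A x0 B η * (r b / (2 * N)) * (f (Rm b η) - f η) ^ 2

/-- the sorted state of a closed window is hit soon -/
def ST_QHIT : Prop := ∀ (N : ℕ) (r l : ℕ → ℝ) (A x0 B m : ℕ) (D rmin lmin Zs : ℝ) (η : Cfg N),
  Adm N r l → Pos N l → A ≤ x0 → x0 ≤ B → A < B → B ≤ N → 0 < rmin → 0 < lmin → lmin ≤ 1 →
  (∀ b, A < b → b < B → rmin ≤ r b ∧ lmin ≤ l b) → 1 ≤ D →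
  (∀ z x, A ≤ z → z ≤ x → x < B → RR r l z x ≤ D) →
  ∑ z ∈ Finset.Ico A x0, RR r l z x0 + ∑ x ∈ Finset.Ico x0 B, RR r l x0 x ≤ Zs →
  cnt η A B = B - x0 →
  nohit r l (Finset.Ioo A B) (sorted A x0 x0 B) m η ≤
    Real.exp (Zs + ((B : ℝ) - A) ^ 2 * Real.log (1 / lmin) -
      m * rmin / (2 * N * (16 * ((B : ℝ) - A) ^ 4 * D ^ 2 * Real.exp Zs)))

/-- closed window with balanced count: sorted outside `[q1,q2)` after a long time -/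
def ST_Q : Prop := ∀ (N : ℕ) (r l : ℕ → ℝ) (S : Finset ℕ) (A q1 x0 q2 B m : ℕ)
  (D rmin lmin Zs : ℝ) (η : Cfg N),
  Adm N r l → Pos N l → A ≤ q1 → q1 ≤ x0 → x0 ≤ q2 → q2 ≤ B → A < B → B ≤ N →
  A ∉ S → B ∉ S → (∀ x, A < x → x < B → x ∈ S) →
  0 < rmin → 0 < lmin → lmin ≤ 1 →
  (∀ b, A < b → b < B → rmin ≤ r b ∧ lmin ≤ l b) → 1 ≤ D →
  (∀ z x, A ≤ z → z ≤ x → x < B → RR r l z x ≤ D) →
  ∑ z ∈ Finset.Ico A x0, RR r l z x0 + ∑ x ∈ Finset.Ico x0 B, RR r l x0 x ≤ Zs →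
  cnt η A B = B - x0 →
  pr r l (fun _ => S) m (sorted A q1 q2 B)ᶜ η ≤
    Real.exp (Zs + ((B : ℝ) - A) ^ 2 * Real.log (1 / lmin) -
      m * rmin / (2 * N * (16 * ((B : ℝ) - A) ^ 4 * D ^ 2 * Real.exp Zs))) +
    (∑ z ∈ Finset.Ico A q1, ∑ x ∈ Finset.Ico x0 B, RR r l z x +
    ∑ z ∈ Finset.Ico A x0, ∑ x ∈ Finset.Ico q2 B, RR r l z x)

/-! ### coalescence, stationary law, hitting -/

/-- coalescence at the highest state -/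
def ST_COAL : Prop := ∀ (N k : ℕ) (r l : ℕ → ℝ) (m : ℕ) (f : Cfg N → ℝ) (η ξ ζ : Cfg N),
  k ≤ N → Adm N r l → ht η 0 = k → ht ξ 0 = k → ht ζ 0 = k → hle 0 ζ η → hle 0 ζ ξ →
  (∀ χ, 0 ≤ f χ) → (∀ χ, f χ ≤ 1) →
  ev r l (fun _ => full N) m f η - ev r l (fun _ => full N) m f ξ ≤
    nohit r l (full N) {top N k} m ζ

/-- geometric trick -/
def ST_HITGEO : Prop := ∀ (N k : ℕ) (r l : ℕ → ℝ) (A : Set (Cfg N)) (b0 m2 J : ℕ) (c1 e : ℝ),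
  k ≤ N → Adm N r l → Inc k (ind A) → 0 ≤ c1 → c1 ≤ 1 → 0 ≤ e →
  (∀ η ∈ A, ht η 0 = k → nohit r l (full N) {top N k} b0 η ≤ 1 - c1) →
  pr r l (fun _ => full N) m2 Aᶜ (bot N k) ≤ e →
  nohit r l (full N) {top N k} (m2 + J * b0) (bot N k) ≤ e + (1 - c1) ^ J

/-- local hitting of the top state -/
def ST_LOCHIT : Prop := ∀ (N k : ℕ) (r l : ℕ → ℝ) (m0 b0 : ℕ) (c : ℝ) (η : Cfg N),
  1 ≤ N → k ≤ N → Adm N r l → ht η 0 = k → η ∈ (sorted 0 (N - k - m0) (N - k + m0) N : Set (Cfg N)) →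
  0 < c → c ≤ 1 → (∀ b, 1 ≤ b → b < N → N ≤ b + k + m0 → b + k ≤ N + m0 → c ≤ r b) →
  m0 ^ 2 * ⌈2 * (N : ℝ) / c⌉₊ ≤ b0 →
  nohit r l (full N) {top N k} b0 η ≤ 1 - (c / (4 * ((m0 : ℝ) + 1))) ^ (m0 ^ 2)

/-- existence and uniqueness of the stationary law -/
def ST_STATEX : Prop := ∀ (N k : ℕ) (r l : ℕ → ℝ), 1 ≤ N → k ≤ N → Adm N r l →
  ∃! π : Cfg N → ℝ, IsStat N k r l π

/-- tail of the stationary law -/
def ST_STATTAIL : Prop := ∀ (N k : ℕ) (r l l' : ℕ → ℝ) (π : Cfg N → ℝ) (q1 q2 : ℕ),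
  1 ≤ N → k ≤ N → Adm N r l → Adm N r l' → Pos N l' → (∀ x, 1 ≤ x → x < N → l x ≤ l' x) →
  IsStat N k r l π → q1 ≤ N - k → N - k ≤ q2 → q2 ≤ N →
  ∑ η, π η * ind (sorted 0 q1 q2 N)ᶜ η ≤
    ∑ z ∈ Finset.Ico 0 q1, ∑ x ∈ Finset.Ico (N - k) N, RR r l' z x +
    ∑ z ∈ Finset.Ico 0 (N - k), ∑ x ∈ Finset.Ico q2 N, RR r l' z x

/-! ### upper bounds on the current -/

/-- current through a trap `[A,B]` -/
def ST_EPOCH : Prop := ∀ (N : ℕ) (r l : ℕ → ℝ) (A B j : ℕ) (G : Finset ℕ) (η : Cfg N),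
  Adm N r l → 1 ≤ A → A ≤ B → B + 1 < N → G ⊆ Finset.Icc A B →
  (∀ b, A < b → b ≤ B → 0 < l b) →
  ev r l (fun _ => full N) j (fun ξ => (ht ξ (B + 1) : ℝ)) η ≤
    ht η (B + 1) + ((B : ℝ) + 1 - A) +
    j / (2 * N) * (∑ y ∈ G, r (B + 1) / RR r l y B + ∑ x ∈ Finset.Icc A B \ G, r A / RR r l A x)

/-- current through a stretch with weak drift -/
def ST_STRETCH : Prop := ∀ (N : ℕ) (r l : ℕ → ℝ) (A m' j : ℕ) (η : Cfg N),
  Adm N r l → 1 ≤ m' → A + m' < N →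
  (∀ x, A < x → x ≤ A + m' → r x ≤ 1 / 2 + 1 / m' ∧ 1 / 2 - 1 / m' ≤ l x) →
  ev r l (fun _ => full N) j (fun ξ => ∑ x ∈ Finset.Ioc A (A + m'), (ht ξ x : ℝ)) η ≤
    ∑ x ∈ Finset.Ioc A (A + m'), (ht η x : ℝ) + 3 / 2 * j / (2 * N)

/-- speed bound for the leader of an exclusion process with right drift -/
def ST_LEAD : Prop := ∀ (N : ℕ) (r l a : ℕ → ℝ) (lam C : ℝ) (z z' m n : ℕ) (η : Cfg N),
  Adm N r l → (∀ b, 1 ≤ b → b < N → l b ≤ r b) → (∀ y, 0 ≤ a y) →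
  (∀ y, y + 1 < N → a y ≤ C ∧
    r (y + 1) * a y = 1 + (if y = 0 then 0 else l y * a (y - 1))) →
  0 ≤ lam → lam * C ≤ 1 → 0 ≤ C → z ≤ z' → z' < N → ht η 0 = n → ht η z = 0 →
  pr r l (fun _ => full N) m {ξ | 1 ≤ ht ξ z'} η ≤
    n * Real.exp ((lam + 2 * C ^ 2 * lam ^ 2) * m / (2 * N) - lam * ∑ y ∈ Finset.Ico z z', a y)

/-- comparison with the system of the last `n` particles behind a moving wall -/
def ST_WALL : Prop := ∀ (N k n : ℕ) (r l : ℕ → ℝ) (Z : ℕ → ℕ) (m y : ℕ) (η ξ : Cfg N),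
  Adm N r l → n ≤ k → ht η 0 = k → ht ξ 0 = n → (∀ i, Z i ≤ Z (i + 1)) → (∀ i, Z i ≤ N) →
  (∀ x, x ≤ Z 0 → (k - n) + ht ξ x ≤ ht η x) → ht ξ (Z 0) = 0 → y ≤ Z m →
  pr r l (fun _ => full N) m {ζ | ht ζ y < k} η ≤
    pr r l (fun i => Finset.Ico 1 (Z i)) m {ζ | ht ζ y < n} ξ +
    ∑ i ∈ Finset.Ico 1 (m + 1), pr r l (fun _ => full N) i {ζ | ht ζ (Z i) < k - n} η

end Pool.Agent.Helper98.EX
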