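import Pool.Agent.Helper98.EX.SLDefs

/-!
# Part C: deterministic environment, from the tools to the cutoff window
-/

namespace Pool.Agent.Helper98.EX

open Finset

/-- travel time weights (truncated at distance `w`, with a safety factor `1+η0` per step) -/
noncomputable def atl (r l : ℕ → ℝ) (η0 : ℝ) (w y : ℕ) : ℝ :=
  ∑ d ∈ Finset.range (min w (y + 1)), (1 + η0) ^ (d + 1) * RR r l (y - d) y / r (y + 1)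

/-- left rates bounded away from 0 -/
noncomputable def modl (N : ℕ) (l : ℕ → ℝ) : ℕ → ℝ := fun x => max (l x) ((N : ℝ) ^ (-100 : ℝ))

/-- tail sum of the equilibrium around the interface -/
noncomputable def tails (N k : ℕ) (r l : ℕ → ℝ) (m0 : ℕ) : ℝ :=
  ∑ z ∈ Finset.Ico 0 (N - k - m0), ∑ x ∈ Finset.Ico (N - k) N, RR r l z x +
  ∑ z ∈ Finset.Ico 0 (N - k), ∑ x ∈ Finset.Ico (N - k + m0) N, RR r l z x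

/-- environment conditions for the streaming lemma in the window `[A,B)` with interface `x0` -/
structure SEnv (N : ℕ) (r l : ℕ → ℝ) (A x0 B w : ℕ) (η0 as γ Cs : ℝ) : Prop where
  adm : Adm N r l
  low : ∀ x, 1 ≤ x → x < N → (N : ℝ) ^ (-100 : ℝ) ≤ l x
  far : ∀ z x, z + w ≤ x → x < N → RR r l z x ≤ (N : ℝ) ^ (-11 : ℝ)
  tiny : (1 + η0) ^ (w + 1) ≤ N
  w1 : 1 ≤ w
  wlog : (w : ℝ) ≤ Real.log N ^ 2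
  hA : A + 3 * w ≤ x0
  hB : x0 + 3 * w ≤ B
  hBN : B ≤ N
  at_l : ∀ y, A ≤ y → y < x0 → atl r l η0 w y ≤ as
  at_r : ∀ y, N - B ≤ y → y < N - x0 → atl (mirr N r) (mirr N l) η0 w y ≤ as
  near : ∀ z x, x0 ≤ z + 3 * w → z ≤ x → x < x0 + 3 * w → RR r l z x ≤ (N : ℝ) ^ (γ / 10)
  rlow : ∀ b, x0 < b + 3 * w → b < x0 + 3 * w → (N : ℝ) ^ (-(γ / 10)) ≤ r b
  zs : ∑ z ∈ Finset.Ico (x0 - 3 * w) x0, RR r l z x0 +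
    ∑ x ∈ Finset.Ico x0 (x0 + 3 * w), RR r l x0 x ≤ Cs

/-- global environment conditions (for the original left rates) -/
structure GEnv (N k : ℕ) (r l : ℕ → ℝ) (w m0 : ℕ) (η0 as γ Cs C1 c1 e0 : ℝ) : Prop where
  adm : Adm N r l
  kN : k ≤ N
  rlow2 : ∀ x, 1 ≤ x → x < N → (N : ℝ) ^ (-2 : ℝ) ≤ r x
  rub : ∀ z x, z ≤ x → x < N → RR r l z x ≤ (N : ℝ) ^ (2 : ℝ)
  far : ∀ z x, z + w ≤ x → x < N → RR r l z x ≤ (N : ℝ) ^ (-12 : ℝ)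
  tiny : (1 + η0) ^ (w + 1) ≤ N
  w1 : 1 ≤ w
  wlog : (w : ℝ) ≤ Real.log N ^ 2
  m0w : m0 ≤ w
  hA : 3 * w ≤ N - k
  hB : (N - k) + 3 * w ≤ N
  as1 : 1 ≤ as
  at_l : ∀ y, y + 1 < N → atl r l η0 w y ≤ as
  at_r : ∀ y, y + 1 < N → atl (mirr N r) (mirr N l) η0 w y ≤ as
  suml : ∑ y ∈ Finset.range (N - 1), atl r l η0 w y ≤ C1 * N
  sumr : ∑ y ∈ Finset.range (N - 1), atl (mirr N r) (mirr N l) η0 w y ≤ C1 * N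
  near : ∀ z x, N - k ≤ z + 3 * w → z ≤ x → x < N - k + 3 * w →
    RR r l z x ≤ (N : ℝ) ^ (γ / 20)
  rlow : ∀ b, N - k < b + 3 * w → b < N - k + 3 * w → (N : ℝ) ^ (-(γ / 20)) ≤ r b
  zs : ∑ z ∈ Finset.Ico (N - k - 3 * w) (N - k), RR r l z (N - k) +
    ∑ x ∈ Finset.Ico (N - k) (N - k + 3 * w), RR r l (N - k) x ≤ Cs
  tail : tails N k r l m0 ≤ e0
  loc : ∀ b, 1 ≤ b → b < N → N ≤ b + k + m0 → b + k ≤ N + m0 → c1 ≤ r b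

/-! ### cells, walk condition, moves, streaming with numbers -/

/-- existence of cells -/
def ST_CELL : Prop := ∀ (α : ℕ → ℝ) (A x0 w n : ℕ) (ell amax : ℝ),
  (∀ y, A ≤ y → y < x0 → 0 ≤ α y ∧ α y ≤ amax) → 0 < amax → ((w : ℝ) + 3) * amax ≤ ell →
  1 ≤ w → A + 3 * w ≤ x0 → A + n ≤ x0 →
  ∃ (M : ℕ) (u : ℕ → ℕ), (∀ s, (LD.mk A x0 w n M s u).Valid) ∧
    (∀ c, 1 ≤ c → c ≤ M → ∑ y ∈ Finset.Ico (u (c - 1)) (u c), α y ≤ ell) ∧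
    ((M : ℝ) - 1) * (ell - amax) ≤ ∑ y ∈ Finset.Ico A x0, α y

/-- the weights satisfy the hypothesis of WALK -/
def ST_WCOND : Prop := ∀ (N : ℕ) (r l : ℕ → ℝ) (η0 as : ℝ) (w A u' : ℕ),
  Adm N r l → 0 < η0 → η0 ≤ 1 → 1 ≤ w → 0 < as → u' < N →
  (∀ y, A ≤ y → y < u' → atl r l η0 w y ≤ as) →
  (∀ y, w ≤ y → y < u' → (1 + η0) ^ (w + 1) * RR r l (y - w) y ≤ η0 / 4) →
  ∀ y, A ≤ y → y < u' →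
    (1 + η0 / (4 * as) * atl r l η0 w y) *
      (η0 / (4 * as) + (if y = A then 0 else l y * (η0 / (4 * as) * atl r l η0 w (y - 1)))) ≤
    r (y + 1) * (η0 / (4 * as) * atl r l η0 w y)

/-- one move of one particle -/
def ST_MOVE : Prop := ∀ (N : ℕ) (r l : ℕ → ℝ) (η0 as eps : ℝ) (w : ℕ) (S : Finset ℕ)
  (a0 a m E τ : ℕ) (η : Cfg N),
  Adm N r l → Pos N l → 0 < η0 → η0 ≤ 1 → 1 ≤ w → 0 < as → 0 ≤ eps →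
  a0 ≤ a → a < m → m + w < E → E ≤ N → a ∉ S → E ∉ S → (∀ x, a < x → x < E → x ∈ S) →
  cnt η a E = 1 → (∃ x, a ≤ x ∧ x < m ∧ occ η x = true) →
  (∀ y, a0 ≤ y → y < m + w → atl r l η0 w y ≤ as) →
  (∀ y, w ≤ y → y < m + w → (1 + η0) ^ (w + 1) * RR r l (y - w) y ≤ η0 / 4) →
  (∀ z x, z + w ≤ x → x < N → RR r l z x ≤ eps) →
  pr r l (fun _ => S) τ {ξ | ∃ i, a ≤ i ∧ i < m ∧ occ ξ i = true} η ≤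
    Real.exp (η0 / (4 * as) * (∑ y ∈ Finset.Ico a0 (m + w), atl r l η0 w y - τ / (2 * N))) +
      N * eps

/-- streaming lemma with numbers -/
def ST_STREAM : Prop := ∀ (γ δ1 η0 Cs : ℝ), 0 < γ → γ ≤ 1 → 0 < δ1 → δ1 ≤ 1 → 0 < η0 → η0 ≤ 1 →
  0 ≤ Cs → ∃ N0 : ℕ, ∀ (N : ℕ) (r l : ℕ → ℝ) (A x0 B w n : ℕ) (as ell : ℝ), N0 ≤ N →
  SEnv N r l A x0 B w η0 as γ Cs → 1 ≤ n → A + n ≤ x0 → x0 + n ≤ B → 1 ≤ as →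
  (N : ℝ) ^ γ * as ≤ ell →
  ∃ (σ : ℕ → Finset ℕ) (m : ℕ), (∀ i, σ i ⊆ Finset.Ioo A B) ∧
    (m : ℝ) ≤ 2 * N * ((1 + δ1) ^ 3 * (max (∑ y ∈ Finset.Ico A x0, atl r l η0 w y)
      (∑ y ∈ Finset.Ico (N - B) (N - x0), atl (mirr N r) (mirr N l) η0 w y) +
      (3 * n + 4) * ell)) ∧
    ∀ η : Cfg N, startw A B x0 n η →
      pr r l σ m (sorted A (x0 - w) (x0 + w) B)ᶜ η ≤ (N : ℝ) ^ (-5 : ℝ)

/-- final stage: from a state above `zet` to the top state -/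
def ST_FIN : Prop := ∀ (γ η0 Cs c1 e0 : ℝ) (m0 : ℕ), 0 < γ → γ ≤ 1 → 0 < η0 → η0 ≤ 1 → 0 ≤ Cs →
  0 < c1 → c1 ≤ 1 → 0 < e0 → ∃ (N0 : ℕ) (Cf : ℝ), 0 ≤ Cf ∧
  ∀ (N k : ℕ) (r l l' : ℕ → ℝ) (A B w n m : ℕ) (as ell e : ℝ), N0 ≤ N → k ≤ N → Adm N r l →
  SEnv N r l' A (N - k) B w η0 as γ Cs → (∀ x, 1 ≤ x → x < N → l x ≤ l' x) → m0 ≤ w →
  1 ≤ n → A + n ≤ N - k → N - k + n ≤ B → 1 ≤ as → (N : ℝ) ^ γ * as ≤ ell →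
  tails N k r l' m0 ≤ e0 →
  (∀ b, 1 ≤ b → b < N → N ≤ b + k + m0 → b + k ≤ N + m0 → c1 ≤ r b) → 0 ≤ e →
  pr r l (fun _ => full N) m {ξ | ¬ hle 0 (zet N A B (N - k) n) ξ} (bot N k) ≤ e →
  nohit r l (full N) {top N k} (m + ⌈2 * (N : ℝ) * (16 * (max
      (∑ y ∈ Finset.Ico A (N - k), atl r l' η0 w y)
      (∑ y ∈ Finset.Ico (N - B) k, atl (mirr N r) (mirr N l') η0 w y) +
      (3 * n + 5) * ell) + Cf)⌉₊) (bot N k) ≤ e + 3 * e0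

/-- from the global conditions to the streaming conditions for the modified left rates -/
def ST_GS : Prop := ∀ (γ : ℝ), 0 < γ → γ ≤ 1 → ∃ N0 : ℕ, ∀ (N k : ℕ) (r l : ℕ → ℝ) (w m0 : ℕ)
  (η0 as Cs C1 c1 e0 : ℝ), N0 ≤ N → 0 < η0 → GEnv N k r l w m0 η0 as γ Cs C1 c1 e0 →
  SEnv N r (modl N l) 0 (N - k) N w η0 (as + 1) γ (Cs + 1) ∧
  tails N k r (modl N l) m0 ≤ e0 + (N : ℝ) ^ (-5 : ℝ) ∧
  ∑ y ∈ Finset.Ico 0 (N - k), atl r (modl N l) η0 w y ≤ (C1 + 1) * N ∧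
  ∑ y ∈ Finset.Ico (N - N) k, atl (mirr N r) (mirr N (modl N l)) η0 w y ≤ (C1 + 1) * N

/-- heights at the time `m1` -/
def ST_HT : Prop := ∀ (ε : ℝ) (m0 : ℕ), 0 < ε → ∃ N0 : ℕ, ∀ (N k : ℕ) (r l : ℕ → ℝ) (m1 : ℕ),
  N0 ≤ N → k ≤ N → Adm N r l →
  ε / 4 ≤ pr r l (fun _ => full N) m1 (sorted 0 (N - k - m0) (N - k + m0) N) (bot N k) →
  Real.log N ^ 2 ≤ (m1 : ℝ) / (2 * N) + 1 →
  (∀ x, x ≤ N → (min k (N - x) : ℕ) - m0 - Real.sqrt ((m1 : ℝ) / (2 * N) + 1) * Real.log N ^ 2 ≤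
    ev r l (fun _ => full N) m1 (fun ξ => (ht ξ x : ℝ)) (bot N k)) ∧
  pr r l (fun _ => full N) m1 {ξ | ∃ x, x ≤ N ∧ (ht ξ x : ℝ) + (m0 +
    2 * (Real.sqrt ((m1 : ℝ) / (2 * N) + 1) * Real.log N ^ 2)) < (min k (N - x) : ℕ)} (bot N k) ≤
    (N : ℝ) ^ (-6 : ℝ)

/-- deterministic theorem 1: if the time is long compared with `N` and with the square of the
largest single-particle travel weight -/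
def ST_DT1 : Prop := ∀ (ε δ γ η0 Cs C1 c1 : ℝ) (m0 : ℕ), 0 < ε → ε ≤ 1 → 0 < δ → 0 < γ → γ ≤ 1 →
  0 < η0 → η0 ≤ 1 → 0 ≤ Cs → 0 ≤ C1 → 0 < c1 → c1 ≤ 1 → ∃ (K : ℝ) (N0 : ℕ), 0 < K ∧
  ∀ (N k : ℕ) (r l : ℕ → ℝ) (w m1 : ℕ) (as : ℝ), N0 ≤ N →
  GEnv N k r l w m0 η0 as γ Cs C1 c1 (ε / 32) →
  ε / 4 ≤ pr r l (fun _ => full N) m1 (sorted 0 (N - k - m0) (N - k + m0) N) (bot N k) →
  K * N ≤ (m1 : ℝ) / (2 * N) → (N : ℝ) ^ (2 * γ) * as ≤ Real.sqrt ((m1 : ℝ) / (2 * N)) →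
  nohit r l (full N) {top N k} ⌈(1 + δ) * (m1 : ℝ)⌉₊ (bot N k) ≤ ε / 4

/-! ### non-nestling environments -/

/-- non-nestling bounds -/
def NN (N : ℕ) (r l : ℕ → ℝ) (p0 q0 : ℝ) : Prop :=
  ∀ x, 1 ≤ x → x < N → p0 ≤ r x ∧ r x ≤ 1 ∧ 0 ≤ l x ∧ l x ≤ q0

/-- exact travel time weights -/
noncomputable def aa (r l : ℕ → ℝ) : ℕ → ℝ
  | 0 => 1 / r 1
  | y + 1 => (1 + l (y + 1) * aa r l y) / r (y + 2)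

/-- comparison of the weights -/
def ST_ATCMP : Prop := ∀ (p0 q0 : ℝ), 0 < q0 → q0 < p0 → p0 ≤ 1 → ∃ (C ηm : ℝ), 0 < C ∧ 0 < ηm ∧
  ηm ≤ 1 ∧ ∀ η0 : ℝ, 0 < η0 → η0 ≤ ηm → ∃ N0 : ℕ, ∀ (N : ℕ) (r l : ℕ → ℝ) (w y : ℕ), N0 ≤ N →
  NN N r l p0 q0 → y + 1 < N →
  1 ≤ aa r l y ∧ aa r l y ≤ C ∧ atl r (modl N l) η0 w y ≤ (1 + C * η0) * aa r l y ∧
  r (y + 1) * aa r l y = 1 + (if y = 0 then 0 else l y * aa r l (y - 1))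

/-- non-nestling environments satisfy all environment conditions -/
def ST_NNG : Prop := ∀ (p0 q0 c γ : ℝ), 0 < q0 → q0 < p0 → p0 ≤ 1 → 0 < c → 0 < γ → γ ≤ 1 →
  ∃ ηm : ℝ, 0 < ηm ∧ ηm ≤ 1 ∧ ∀ η0 : ℝ, 0 < η0 → η0 ≤ ηm → ∃ (K0 as Cs C1 : ℝ), 1 ≤ as ∧ 0 ≤ Cs ∧
  0 ≤ C1 ∧ 0 < K0 ∧ ∀ e0 : ℝ, 0 < e0 → ∃ (m0 N0 : ℕ), ∀ (N k : ℕ) (r l : ℕ → ℝ), N0 ≤ N →
  c * N ≤ k → (k : ℝ) ≤ (1 - c) * N → NN N r l p0 q0 → ∃ w : ℕ, (w : ℝ) ≤ K0 * Real.log N ∧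
    GEnv N k r l w m0 η0 as γ Cs C1 p0 e0 ∧ tails N k r (modl N l) m0 ≤ 2 * e0 ∧
    (∀ x, 1 ≤ x → x < N → l x ≤ modl N l x) ∧
    ∀ A x0 B, A + 3 * w ≤ x0 → x0 + 3 * w ≤ B → B ≤ N →
      SEnv N r (modl N l) A x0 B w η0 as γ Cs

/-- lower bound for the travel time of the last particles -/
def ST_LAGLOW : Prop := ∀ (p0 q0 K κ c3 : ℝ), 0 < q0 → q0 < p0 → p0 ≤ 1 → 0 < K → 0 < κ → 0 < c3 →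
  ∃ N0 : ℕ, ∀ (N k n z z' s m1 : ℕ) (r l : ℕ → ℝ), N0 ≤ N → NN N r l p0 q0 → k ≤ N → z ≤ z' →
  z' < N → (N : ℝ) ^ (0.6 : ℝ) ≤ n → n ≤ k → (n : ℝ) ≤ (N : ℝ) ^ (0.7 : ℝ) →
  c3 * N ≤ (s : ℝ) / (2 * N) → s ≤ m1 → (m1 : ℝ) / (2 * N) ≤ K * N →
  ev r l (fun _ => full N) s (fun ξ => (ht ξ z : ℝ)) (bot N k) < k - n / 2 →
  k - n / 16 ≤ ev r l (fun _ => full N) m1 (fun ξ => (ht ξ z' : ℝ)) (bot N k) →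
  2 * N * (∑ y ∈ Finset.Ico z z', aa r l y - κ * N) ≤ (m1 : ℝ) - s

/-- one phase of the system of the last `n` particles in the window `[A,B)` -/
def ST_PHASE : Prop := ∀ (γ δ1 η0 Cs : ℝ), 0 < γ → γ ≤ 1 → 0 < δ1 → δ1 ≤ 1 → 0 < η0 → η0 ≤ 1 →
  0 ≤ Cs → ∃ N0 : ℕ, ∀ (N : ℕ) (r l : ℕ → ℝ) (A B w n : ℕ) (as : ℝ), N0 ≤ N →
  SEnv N r l A (B - n) B w η0 as γ Cs → 1 ≤ n → A + 2 * n ≤ B → 1 ≤ as →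
  ∃ (σ : ℕ → Finset ℕ) (m : ℕ), (∀ i, σ i ⊆ Finset.Ioo A B) ∧
    (m : ℝ) ≤ 2 * N * ((1 + δ1) ^ 3 * (∑ y ∈ Finset.Ico A (B - n), atl r l η0 w y +
      n * as + (3 * n + 4) * ((N : ℝ) ^ γ * as))) ∧
    ∀ ξ : Cfg N, ht ξ 0 = n → ht ξ A = n →
      pr r l σ m {ζ | ht ζ (B - n - w) < n} ξ ≤ (N : ℝ) ^ (-5 : ℝ)

/-- the last particles arrive: no particle far left of the interface shortly after `m1` -/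
def ST_LAGL : Prop := ∀ (p0 q0 c K : ℝ), 0 < q0 → q0 < p0 → p0 ≤ 1 → 0 < c → 0 < K →
  ∃ (C3 δm : ℝ), 0 < C3 ∧ 0 < δm ∧ ∀ δ1 : ℝ, 0 < δ1 → δ1 ≤ δm → ∃ N0 : ℕ,
  ∀ (N k : ℕ) (r l : ℕ → ℝ) (m1 m : ℕ), N0 ≤ N → c * N ≤ k → (k : ℝ) ≤ (1 - c) * N →
  NN N r l p0 q0 → (m1 : ℝ) / (2 * N) ≤ K * N →
  (∀ x, x ≤ N → (min k (N - x) : ℕ) - (N : ℝ) ^ (0.55 : ℝ) ≤
    ev r l (fun _ => full N) m1 (fun ξ => (ht ξ x : ℝ)) (bot N k)) →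
  (m1 : ℝ) + 2 * N * (C3 * δ1 * N) ≤ m →
  pr r l (fun _ => full N) m {ζ | ht ζ (N - k - 2 * ⌊δ1 * N⌋₊) < k} (bot N k) ≤
    (N : ℝ) ^ (-2 : ℝ)

/-- deterministic theorem 2: non-nestling environment, time of order `N` -/
def ST_DT2 : Prop := ∀ (p0 q0 c ε δ K : ℝ) (m0 : ℕ), 0 < q0 → q0 < p0 → p0 ≤ 1 → 0 < c →
  0 < ε → ε ≤ 1 → 0 < δ → 0 < K → ∃ N0 : ℕ, ∀ (N k : ℕ) (r l : ℕ → ℝ) (m1 : ℕ), N0 ≤ N →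
  c * N ≤ k → (k : ℝ) ≤ (1 - c) * N → NN N r l p0 q0 → tails N k r (modl N l) m0 ≤ ε / 16 →
  ε / 4 ≤ pr r l (fun _ => full N) m1 (sorted 0 (N - k - m0) (N - k + m0) N) (bot N k) →
  (m1 : ℝ) / (2 * N) ≤ K * N →
  nohit r l (full N) {top N k} ⌈(1 + δ) * (m1 : ℝ)⌉₊ (bot N k) ≤ ε / 4

/-- trivial lower bound on `m1` -/
def ST_LOW : Prop := ∀ (ε c : ℝ) (m0 : ℕ), 0 < ε → 0 < c → ∃ (c' : ℝ) (N0 : ℕ), 0 < c' ∧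
  ∀ (N k : ℕ) (r l : ℕ → ℝ) (m1 : ℕ), N0 ≤ N → c * N ≤ k → (k : ℝ) ≤ (1 - c) * N →
  Adm N r l →
  ε / 4 ≤ pr r l (fun _ => full N) m1 (sorted 0 (N - k - m0) (N - k + m0) N) (bot N k) →
  c' * N ≤ (m1 : ℝ) / (2 * N)

/-- the expected height at `m1` is larger than the initial one by order `N` in the bulk -/
def ST_GAIN : Prop := ∀ (ε c c2 : ℝ) (m0 : ℕ), 0 < ε → 0 < c → 0 < c2 → ∃ (c' : ℝ) (N0 : ℕ),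
  0 < c' ∧ ∀ (N k : ℕ) (r l : ℕ → ℝ) (m1 x : ℕ), N0 ≤ N → c * N ≤ k → (k : ℝ) ≤ (1 - c) * N →
  Adm N r l → c2 * N ≤ x → (x : ℝ) ≤ (1 - c2) * N →
  ε / 4 ≤ pr r l (fun _ => full N) m1 (sorted 0 (N - k - m0) (N - k + m0) N) (bot N k) →
  (ht (bot N k) x : ℝ) + c' * N ≤ ev r l (fun _ => full N) m1 (fun ξ => (ht ξ x : ℝ)) (bot N k)

/-- lower bound on `m1` from a trap -/
def ST_TRAPLOW : Prop := ∀ (ε c c2 : ℝ) (m0 : ℕ), 0 < ε → 0 < c → 0 < c2 → ∃ (c' : ℝ) (N0 : ℕ),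
  0 < c' ∧ ∀ (N k : ℕ) (r l : ℕ → ℝ) (m1 A B w : ℕ) (a : ℝ), N0 ≤ N → c * N ≤ k →
  (k : ℝ) ≤ (1 - c) * N → Adm N r l → c2 * N ≤ A → A ≤ B → B < A + w → (B : ℝ) + 1 ≤ (1 - c2) * N →
  (w : ℝ) ≤ Real.log N ^ 2 → 0 < a →
  (a ≤ RR r l A B / r (B + 1) ∨ a ≤ RR r l A B / r A) →
  ε / 4 ≤ pr r l (fun _ => full N) m1 (sorted 0 (N - k - m0) (N - k + m0) N) (bot N k) →
  c' * N * Real.sqrt a / Real.log N ^ 2 ≤ (m1 : ℝ) / (2 * N)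

/-- lower bound on `m1` from a weak stretch -/
def ST_STRLOW : Prop := ∀ (ε c c2 : ℝ) (m0 : ℕ), 0 < ε → 0 < c → 0 < c2 → ∃ (c' : ℝ),
  0 < c' ∧ ∀ m' : ℕ, 1 ≤ m' → ∃ N0 : ℕ, ∀ (N k : ℕ) (r l : ℕ → ℝ) (m1 A : ℕ), N0 ≤ N → c * N ≤ k →
  (k : ℝ) ≤ (1 - c) * N → Adm N r l → c2 * N ≤ A → (A : ℝ) + m' ≤ (1 - c2) * N →
  (∀ x, A < x → x ≤ A + m' → r x ≤ 1 / 2 + 1 / m' ∧ 1 / 2 - 1 / m' ≤ l x) →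
  ε / 4 ≤ pr r l (fun _ => full N) m1 (sorted 0 (N - k - m0) (N - k + m0) N) (bot N k) →
  c' * m' * N ≤ (m1 : ℝ) / (2 * N)

end Pool.Agent.Helper98.EX
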